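import Pool.Agent.V11126.Ear.Glue
import Pool.Agent.V11126.Ear.Stellar

/-!
From the realization of the (relabelled) ball to lists of masks, and from one tetrahedron to the
closed unit ball of Euclidean 3-space.
-/

namespace Pool.Agent.V11126.Ear

open Finset

/-- the set of the bits of a mask -/
def toF (m : ℕ) : Finset ℕ := (Finset.range 128).filter fun v => m.testBit v = true

lemma mem_toF {m v : ℕ} (hm : m < 2 ^ 128) : v ∈ toF m ↔ m.testBit v = true := by
  unfold toF
  rw [Finset.mem_filter, Finset.mem_range]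
  constructor
  · exact fun h => h.2
  · intro h
    refine ⟨?_, h⟩
    by_contra hcon
    push Not at hcon
    have h1 : m.testBit v = false :=
      Nat.testBit_lt_two_pow (lt_of_lt_of_le hm (Nat.pow_le_pow_right (by norm_num) hcon))
    rw [h1] at h
    exact absurd h (by simp)

lemma toF_lt {m v : ℕ} (h : v ∈ toF m) : v < 128 := by
  unfold toF at h
  rw [Finset.mem_filter, Finset.mem_range] at h
  exact h.1

section relabel
variable {N : ℕ} {fac : ℕ → Finset ℕ} {ρ : ℕ → ℕ × ℕ}

lemma relabel_sum (y : ℕ → ℝ) {f : Finset ℕ} (hf : ∀ v ∈ f, v < 128) (h0 : ∀ v, v ∉ f → y v = 0) :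
    ∑ v ∈ Finset.range 128, y v = ∑ v ∈ f, y v := by
  symm
  apply Finset.sum_subset
  · intro v hv
    exact Finset.mem_range.2 (hf v hv)
  · intro v _ hv
    exact h0 v hv

theorem relabel_homeo (hρ : ∀ v, (ρ v).1 = v) (L : List ℕ) (hL : ∀ m ∈ L, m < 2 ^ 128)
    (h1 : ∀ m ∈ L, ∃ a < N, fac a = toF m) (h2 : ∀ a < N, ∃ m ∈ L, fac a = toF m) :
    Nonempty (realization (cplx N fac ρ) ≃ₜ Rm L) := by
  have hinj : Function.Injective ρ := by
    intro a b h
    rw [← hρ a, ← hρ b, h]
  have key : ∀ x ∈ realization (cplx N fac ρ), ∃ m ∈ L, ∀ v, v ∉ (toF m).image ρ → x v = 0 := by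
    rintro x ⟨hx0, s, hs, hs0, hs1⟩
    rw [mem_cplx] at hs
    obtain ⟨a, ha, hsa⟩ := hs
    obtain ⟨m, hm, hfm⟩ := h2 a ha
    refine ⟨m, hm, ?_⟩
    intro v hv
    apply hs0
    intro hvs
    apply hv
    rw [← hfm]
    exact hsa hvs
  have fwd : ∀ x ∈ realization (cplx N fac ρ), (fun v => x (ρ v)) ∈ Rm L := by
    rintro x hx
    obtain ⟨m, hm, hm0⟩ := key x hx
    obtain ⟨hx0, s, hs, hs0, hs1⟩ := hx
    have hz : ∀ v, v ∉ toF m → x (ρ v) = 0 := by
      intro v hv
      apply hm0
      intro hv2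
      rw [Finset.mem_image] at hv2
      obtain ⟨u, hu, huv⟩ := hv2
      exact hv (hinj huv ▸ hu)
    refine ⟨fun v => hx0 _, ⟨m, hm, ?_⟩, ?_⟩
    · intro v hv
      apply hz
      rw [mem_toF (hL m hm), hv]
      simp
    · rw [relabel_sum (fun v => x (ρ v)) (f := toF m) (fun v hv => toF_lt hv) hz]
      rw [← hs1]
      have h3 : ∑ v ∈ toF m, x (ρ v) = ∑ u ∈ (toF m).image ρ, x u := by
        rw [Finset.sum_image (fun a _ b _ h => hinj h)]
      rw [h3]
      have h4 : ∑ u ∈ (toF m).image ρ, x u = ∑ u ∈ (toF m).image ρ ∪ s, x u := by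
        apply Finset.sum_subset Finset.subset_union_left
        intro u _ hu
        exact hm0 u hu
      have h5 : ∑ u ∈ s, x u = ∑ u ∈ (toF m).image ρ ∪ s, x u := by
        apply Finset.sum_subset Finset.subset_union_right
        intro u _ hu
        exact hs0 u hu
      rw [h4, h5]
  have bwd : ∀ y ∈ Rm L, (fun u : ℕ × ℕ => if ρ u.1 = u then y u.1 else 0) ∈
      realization (cplx N fac ρ) := by
    rintro y ⟨hy0, ⟨m, hm, hm0⟩, hy1⟩
    obtain ⟨a, ha, hfa⟩ := h1 m hm
    have hz : ∀ v, v ∉ toF m → y v = 0 := by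
      intro v hv
      apply hm0
      rw [mem_toF (hL m hm)] at hv
      simpa using hv
    refine ⟨?_, (fac a).image ρ, ?_, ?_, ?_⟩
    · intro u
      show (0 : ℝ) ≤ if ρ u.1 = u then y u.1 else 0
      split_ifs
      · exact hy0 _
      · exact le_rfl
    · rw [mem_cplx]
      exact ⟨a, ha, Finset.Subset.refl _⟩
    · intro u hu
      show (if ρ u.1 = u then y u.1 else 0) = (0 : ℝ)
      split_ifs with h3
      · apply hz
        intro h4
        apply hu
        rw [Finset.mem_image]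
        exact ⟨u.1, hfa ▸ h4, h3⟩
      · rfl
    · rw [Finset.sum_image (fun a _ b _ h => hinj h)]
      rw [← hy1, relabel_sum y (f := toF m) (fun v hv => toF_lt hv) hz, hfa]
      apply Finset.sum_congr rfl
      intro v _
      show (if ρ (ρ v).1 = ρ v then y (ρ v).1 else 0) = y v
      rw [hρ, if_pos rfl]
  refine ⟨{ toFun := fun x => ⟨fun v => x.1 (ρ v), fwd x.1 x.2⟩
            invFun := fun y => ⟨fun u => if ρ u.1 = u then y.1 u.1 else 0, bwd y.1 y.2⟩
            left_inv := ?_
            right_inv := ?_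
            continuous_toFun := ?_
            continuous_invFun := ?_ }⟩
  · intro x
    apply Subtype.ext
    funext u
    show (if ρ u.1 = u then x.1 (ρ u.1) else 0) = x.1 u
    split_ifs with h3
    · rw [h3]
    · obtain ⟨m, hm, hm0⟩ := key x.1 x.2
      symm
      apply hm0
      intro h4
      rw [Finset.mem_image] at h4
      obtain ⟨w, _, rfl⟩ := h4
      exact h3 (by rw [hρ])
  · intro y
    apply Subtype.ext
    funext v
    show (if ρ (ρ v).1 = ρ v then y.1 (ρ v).1 else 0) = y.1 v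
    rw [hρ, if_pos rfl]
  · apply Continuous.subtype_mk
    apply continuous_pi
    intro v
    exact (continuous_apply (ρ v)).comp continuous_subtype_val
  · apply Continuous.subtype_mk
    apply continuous_pi
    intro u
    by_cases h3 : ρ u.1 = u
    · simp only [h3, if_true]
      exact (continuous_apply u.1).comp continuous_subtype_val
    · simp only [h3, if_false]
      exact continuous_const

end relabel

section simplex

/-- the standard full-dimensional simplex in Euclidean 3-space -/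
def tet : Set (EuclideanSpace ℝ (Fin 3)) := {z | (∀ i, 0 ≤ z i) ∧ z 0 + z 1 + z 2 ≤ 1}

lemma tet_closed : IsClosed tet := by
  have h1 : tet = (⋂ i : Fin 3, {z : EuclideanSpace ℝ (Fin 3) | 0 ≤ z i}) ∩
      {z | z 0 + z 1 + z 2 ≤ 1} := by
    apply Set.ext
    intro z
    simp [tet]
  rw [h1]
  apply IsClosed.inter
  · apply isClosed_iInter
    intro i
    exact isClosed_le continuous_const (by fun_prop)
  · exact isClosed_le (by fun_prop) continuous_const

lemma tet_convex : Convex ℝ tet := by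
  rintro x ⟨hx0, hx1⟩ y ⟨hy0, hy1⟩ a b ha hb hab
  refine ⟨?_, ?_⟩
  · intro i
    simp only [PiLp.add_apply, PiLp.smul_apply, smul_eq_mul]
    exact add_nonneg (mul_nonneg ha (hx0 i)) (mul_nonneg hb (hy0 i))
  · simp only [PiLp.add_apply, PiLp.smul_apply, smul_eq_mul]
    nlinarith

lemma tet_bounded : Bornology.IsBounded tet := by
  rw [Metric.isBounded_iff_subset_closedBall 0]
  refine ⟨1, ?_⟩
  rintro z ⟨hz0, hz1⟩
  rw [mem_closedBall_zero_iff, EuclideanSpace.norm_eq, Real.sqrt_le_one, Fin.sum_univ_three]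
  have h0 := hz0 0
  have h1 := hz0 1
  have h2 := hz0 2
  simp only [Real.norm_eq_abs, sq_abs]
  nlinarith

lemma tet_interior : (interior tet).Nonempty := by
  have o0 : ∀ i, IsOpen {z : EuclideanSpace ℝ (Fin 3) | 0 < z i} := fun i =>
    isOpen_lt continuous_const (by fun_prop)
  have o3 : IsOpen {z : EuclideanSpace ℝ (Fin 3) | z 0 + z 1 + z 2 < 1} :=
    isOpen_lt (by fun_prop) continuous_const
  have h1 : IsOpen {z : EuclideanSpace ℝ (Fin 3) | 0 < z 0 ∧ 0 < z 1 ∧ 0 < z 2 ∧ z 0 + z 1 + z 2 < 1} :=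
    (o0 0).inter ((o0 1).inter ((o0 2).inter o3))
  have h2 : {z : EuclideanSpace ℝ (Fin 3) | 0 < z 0 ∧ 0 < z 1 ∧ 0 < z 2 ∧ z 0 + z 1 + z 2 < 1} ⊆ tet := by
    rintro z ⟨h0, h1, h2, h3⟩
    refine ⟨?_, h3.le⟩
    intro i
    fin_cases i
    · exact h0.le
    · exact h1.le
    · exact h2.le
  refine ⟨WithLp.toLp 2 (fun _ => 1 / 4), interior_maximal h2 h1 ?_⟩
  show (0 : ℝ) < 1 / 4 ∧ (0 : ℝ) < 1 / 4 ∧ (0 : ℝ) < 1 / 4 ∧ (1 / 4 : ℝ) + 1 / 4 + 1 / 4 < 1
  norm_num

lemma tet_ball : Nonempty (tet ≃ₜ Metric.closedBall (0 : EuclideanSpace ℝ (Fin 3)) 1) := by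
  obtain ⟨h, _, h2, _⟩ := exists_homeomorph_image_interior_closure_frontier_eq_unitBall
    tet_convex tet_interior tet_bounded
  rw [tet_closed.closure_eq] at h2
  exact ⟨(h.image tet).trans (Homeomorph.setCongr h2)⟩

theorem simplex_ball (m b0 b1 b2 b3 : ℕ) (h01 : b0 ≠ b1) (h02 : b0 ≠ b2) (h03 : b0 ≠ b3)
    (h12 : b1 ≠ b2) (h13 : b1 ≠ b3) (h23 : b2 ≠ b3) (hlt : b0 < 128 ∧ b1 < 128 ∧ b2 < 128 ∧ b3 < 128)
    (hm : ∀ v, m.testBit v = true ↔ v = b0 ∨ v = b1 ∨ v = b2 ∨ v = b3) :
    Nonempty (Rm [m] ≃ₜ Metric.closedBall (0 : EuclideanSpace ℝ (Fin 3)) 1) := by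
  have hsum : ∀ y : ℕ → ℝ, (∀ v, v ≠ b0 → v ≠ b1 → v ≠ b2 → v ≠ b3 → y v = 0) →
      ∑ v ∈ Finset.range 128, y v = y b0 + y b1 + y b2 + y b3 := by
    intro y hy
    rw [relabel_sum y (f := {b0, b1, b2, b3})]
    · rw [Finset.sum_insert (by simp [h01, h02, h03]), Finset.sum_insert (by simp [h12, h13]),
        Finset.sum_insert (by simp [h23]), Finset.sum_singleton]
      ring
    · intro v hv
      simp only [Finset.mem_insert, Finset.mem_singleton] at hv
      rcases hv with rfl | rfl | rfl | rfl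
      · exact hlt.1
      · exact hlt.2.1
      · exact hlt.2.2.1
      · exact hlt.2.2.2
    · intro v hv
      simp only [Finset.mem_insert, Finset.mem_singleton, not_or] at hv
      exact hy v hv.1 hv.2.1 hv.2.2.1 hv.2.2.2
  have hsupp : ∀ x ∈ Rm [m], (∀ v, 0 ≤ x v) ∧ (∀ v, v ≠ b0 → v ≠ b1 → v ≠ b2 → v ≠ b3 → x v = 0) ∧
      x b0 + x b1 + x b2 + x b3 = 1 := by
    rintro x ⟨hx0, ⟨m', hm', hm0⟩, hx1⟩
    rw [List.mem_singleton] at hm'
    subst hm'
    have h1 : ∀ v, v ≠ b0 → v ≠ b1 → v ≠ b2 → v ≠ b3 → x v = 0 := by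
      intro v g0 g1 g2 g3
      apply hm0
      cases hb : m'.testBit v
      · rfl
      · rw [hm] at hb
        tauto
    exact ⟨hx0, h1, by rw [← hsum x h1, hx1]⟩
  have hmem : ∀ x : ℕ → ℝ, (∀ v, 0 ≤ x v) → (∀ v, v ≠ b0 → v ≠ b1 → v ≠ b2 → v ≠ b3 → x v = 0) →
      x b0 + x b1 + x b2 + x b3 = 1 → x ∈ Rm [m] := by
    intro x hx0 h1 h2
    refine ⟨hx0, ⟨m, by simp, ?_⟩, by rw [hsum x h1, h2]⟩
    intro v hv
    have h3 : ¬ (v = b0 ∨ v = b1 ∨ v = b2 ∨ v = b3) := by
      rw [← hm, hv]; simp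
    push Not at h3
    exact h1 v h3.1 h3.2.1 h3.2.2.1 h3.2.2.2
  let inv : EuclideanSpace ℝ (Fin 3) → ℕ → ℝ := fun z v =>
    if v = b0 then 1 - (z 0 + z 1 + z 2) else if v = b1 then z 0 else if v = b2 then z 1
      else if v = b3 then z 2 else 0
  have i0 : ∀ z, inv z b0 = 1 - (z 0 + z 1 + z 2) := fun z => by simp [inv]
  have i1 : ∀ z, inv z b1 = z 0 := fun z => by simp [inv, h01.symm]
  have i2 : ∀ z, inv z b2 = z 1 := fun z => by simp [inv, h02.symm, h12.symm]
  have i3 : ∀ z, inv z b3 = z 2 := fun z => by simp [inv, h03.symm, h13.symm, h23.symm]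
  have i4 : ∀ z v, v ≠ b0 → v ≠ b1 → v ≠ b2 → v ≠ b3 → inv z v = 0 := fun z v g0 g1 g2 g3 => by
    simp [inv, g0, g1, g2, g3]
  let e : Rm [m] ≃ₜ tet :=
    { toFun := fun x => ⟨WithLp.toLp 2 ![x.1 b1, x.1 b2, x.1 b3], by
        obtain ⟨hx0, _, hx2⟩ := hsupp x.1 x.2
        refine ⟨?_, ?_⟩
        · intro i
          fin_cases i
          · exact hx0 b1
          · exact hx0 b2
          · exact hx0 b3
        · show x.1 b1 + x.1 b2 + x.1 b3 ≤ 1
          linarith [hx0 b0]⟩
      invFun := fun z => ⟨inv z.1, by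
        obtain ⟨hz0, hz1⟩ := z.2
        apply hmem
        · intro v
          show 0 ≤ (if v = b0 then 1 - (z.1 0 + z.1 1 + z.1 2) else if v = b1 then z.1 0
            else if v = b2 then z.1 1 else if v = b3 then z.1 2 else 0)
          split_ifs
          · linarith
          · exact hz0 0
          · exact hz0 1
          · exact hz0 2
          · exact le_rfl
        · exact i4 z.1
        · rw [i0, i1, i2, i3]
          ring⟩
      left_inv := by
        intro x
        obtain ⟨hx0, hx1, hx2⟩ := hsupp x.1 x.2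
        apply Subtype.ext
        funext v
        show inv (WithLp.toLp 2 ![x.1 b1, x.1 b2, x.1 b3]) v = x.1 v
        by_cases g0 : v = b0
        · rw [g0, i0]
          show 1 - (x.1 b1 + x.1 b2 + x.1 b3) = x.1 b0
          linarith
        by_cases g1 : v = b1
        · rw [g1, i1]; rfl
        by_cases g2 : v = b2
        · rw [g2, i2]; rfl
        by_cases g3 : v = b3
        · rw [g3, i3]; rfl
        rw [i4 _ v g0 g1 g2 g3, hx1 v g0 g1 g2 g3]
      right_inv := by
        intro z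
        apply Subtype.ext
        show WithLp.toLp 2 ![inv z.1 b1, inv z.1 b2, inv z.1 b3] = z.1
        rw [i1, i2, i3]
        ext i
        fin_cases i <;> rfl
      continuous_toFun := by
        apply Continuous.subtype_mk
        apply (PiLp.continuous_toLp 2 _).comp
        apply continuous_pi
        intro i
        fin_cases i
        · exact (continuous_apply b1).comp continuous_subtype_val
        · exact (continuous_apply b2).comp continuous_subtype_val
        · exact (continuous_apply b3).comp continuous_subtype_val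
      continuous_invFun := by
        apply Continuous.subtype_mk
        apply continuous_pi
        intro v
        show Continuous fun z : tet => (if v = b0 then 1 - (z.1 0 + z.1 1 + z.1 2) else
          if v = b1 then z.1 0 else if v = b2 then z.1 1 else if v = b3 then z.1 2 else 0)
        split_ifs
        · fun_prop
        · fun_prop
        · fun_prop
        · fun_prop
        · fun_prop }
  obtain ⟨e2⟩ := tet_ball
  exact ⟨e.trans e2⟩

end simplex

end Pool.Agent.V11126.Ear
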