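import Pool.Agent.V11126.Ear.ChainData

/-!
Checking the moves.
-/

namespace Pool.Agent.V11126.Ear

theorem cT0 : runM cL1 cM0 cL0 = true := by decide +kernel

theorem cT1 : runM cL2 cM1 cL1 = true := by decide +kernel

theorem cT2 : runM cL3 cM2 cL2 = true := by decide +kernel

theorem cT3 : runM cL4 cM3 cL3 = true := by decide +kernel

end Pool.Agent.V11126.Ear
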