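import Pool.Agent.V11126.Ear.ChainData

/-!
Checking the moves.
-/

namespace Pool.Agent.V11126.Ear

theorem cT4 : runM cL5 cM4 cL4 = true := by decide +kernel

theorem cT5 : runM cL6 cM5 cL5 = true := by decide +kernel

theorem cT6 : runM cL7 cM6 cL6 = true := by decide +kernel

end Pool.Agent.V11126.Ear
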