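import Pool.Agent.V11126.Ear.Data
import Pool.Agent.V11126.Ear.Ball

/-!
Boolean checks on the data.
-/

namespace Pool.Agent.V11126.Ear

open Finset

noncomputable def allB (n : ℕ) (f : ℕ → Bool) : Bool :=
  Nat.rec (motive := fun _ => Bool) true (fun i ih => cond (f i) ih false) n

lemma allB_iff (n : ℕ) (f : ℕ → Bool) : allB n f = true ↔ ∀ i < n, f i = true := by
  induction n with
  | zero => simp [allB]
  | succ n ih =>
    have h1 : allB (n + 1) f = cond (f n) (allB n f) false := rfl
    rw [h1]
    constructor
    · intro h i hi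
      cases hn : f n
      · rw [hn] at h; simp at h
      · rw [hn, cond_true, ih] at h
        rcases Nat.lt_succ_iff_lt_or_eq.1 hi with h2 | h2
        · exact h i h2
        · rw [h2, hn]
    · intro h
      rw [h n (Nat.lt_succ_self n), cond_true, ih]
      exact fun i hi => h i (Nat.lt_succ_of_lt hi)

noncomputable def anyB (n : ℕ) (f : ℕ → Bool) : Bool :=
  Nat.rec (motive := fun _ => Bool) false (fun i ih => cond (f i) true ih) n

lemma anyB_iff (n : ℕ) (f : ℕ → Bool) : anyB n f = true ↔ ∃ i < n, f i = true := by
  induction n with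
  | zero => simp [anyB]
  | succ n ih =>
    have h1 : anyB (n + 1) f = cond (f n) true (anyB n f) := rfl
    rw [h1]
    constructor
    · intro h
      cases hn : f n
      · rw [hn, cond_false, ih] at h
        obtain ⟨i, hi, h2⟩ := h
        exact ⟨i, Nat.lt_succ_of_lt hi, h2⟩
      · exact ⟨n, Nat.lt_succ_self n, hn⟩
    · rintro ⟨i, hi, h2⟩
      cases hn : f n
      · rw [cond_false, ih]
        rcases Nat.lt_succ_iff_lt_or_eq.1 hi with h3 | h3
        · exact ⟨i, h3, h2⟩
        · rw [h3, hn] at h2; exact absurd h2 (by simp)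
      · rfl

noncomputable def anyL (f : ℕ → Bool) (L : List ℕ) : Bool :=
  List.rec (motive := fun _ => Bool) false (fun m _ ih => cond (f m) true ih) L

lemma anyL_iff (f : ℕ → Bool) (L : List ℕ) : anyL f L = true ↔ ∃ m ∈ L, f m = true := by
  induction L with
  | nil => simp [anyL]
  | cons m L ih =>
    have h1 : anyL f (m :: L) = cond (f m) true (anyL f L) := rfl
    rw [h1, List.exists_mem_cons_iff]
    cases hp : f m
    · simp [ih]
    · simp

/-- mask of the ridge of `a` opposite to its `k`-th vertex -/
def rg (a k : ℕ) : ℕ := Nat.xor (fm a) (Nat.pow 2 (vt a k))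

/-- implication -/
def imp (a b : Bool) : Bool := cond a b true

lemma imp_iff {a b : Bool} : imp a b = true ↔ (a = true → b = true) := by
  cases a <;> simp [imp]

lemma and_iff' {a b : Bool} : cond a b false = true ↔ (a = true ∧ b = true) := by
  cases a <;> simp

lemma or_iff' {a b : Bool} : cond a true b = true ↔ (a = true ∨ b = true) := by
  cases a <;> simp

lemma not_iff' {a : Bool} : cond a false true = true ↔ a = false := by
  cases a <;> simp

lemma ble_iff {a b : ℕ} : Nat.ble a b = true ↔ a ≤ b := Nat.ble_eq ▸ Iff.rfl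

lemma blt_iff {a b : ℕ} : Nat.ble (Nat.succ a) b = true ↔ a < b := ble_iff

/-- vertices of the facets -/
noncomputable def ckV : Bool := allB 394 fun a =>
  cond (Nat.ble (Nat.succ (vt a 0)) (vt a 1)) (cond (Nat.ble (Nat.succ (vt a 1)) (vt a 2))
    (cond (Nat.ble (Nat.succ (vt a 2)) (vt a 3)) (cond (Nat.ble (Nat.succ (vt a 3)) 77)
      (Nat.beq (fm a) (Nat.lor (Nat.pow 2 (vt a 0)) (Nat.lor (Nat.pow 2 (vt a 1))
        (Nat.lor (Nat.pow 2 (vt a 2)) (Nat.pow 2 (vt a 3))))))
      false) false) false) false

/-- a ridge of the ball is in at most two facets -/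
noncomputable def ckO : Bool := allB 338 fun a => allB 4 fun k => allB 338 fun b =>
  imp (has (fm b) (rg a k)) (cond (Nat.beq b a) true (Nat.beq b (nb a k)))

/-- neighbours in the sphere -/
noncomputable def ckN : Bool := allB 394 fun a => allB 4 fun k =>
  cond (Nat.ble (Nat.succ (nb a k)) 394) (cond (has (fm (nb a k)) (rg a k))
    (cond (has (fm (nb a k)) (Nat.pow 2 (vt a k))) false true) false) false

/-- inverse transition maps in the ball -/
noncomputable def ckI : Bool := allB 338 fun a => allB 4 fun k =>
  imp (Nat.ble (Nat.succ (nb a k)) 338) (anyB 4 fun l => cond (Nat.beq (nb (nb a k) l) a)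
    (allB 3 fun t => Nat.beq (trn (nb a k) l (trn a k t)) t) false)

noncomputable def ckT : Bool := allB 338 fun a => allB 4 fun k =>
  allB 3 fun t => Nat.ble (Nat.succ (trn a k t)) 3

noncomputable def ckOut : Bool := allB 338 fun a => cond (has (fm a) (fm 338)) false true

noncomputable def ckF : Bool := allB 338 fun a => allB 338 fun b =>
  imp (has (fm b) (fm a)) (Nat.beq a b)

noncomputable def ckBD : Bool := allB 338 fun a => allB 4 fun k =>
  imp (Nat.ble 338 (nb a k)) (has Dm (rg a k))

noncomputable def ckD3 : Bool := allB 338 fun a => allB 4 fun k =>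
  imp (has Dm (rg a k)) (Nat.ble 338 (nb a k))

noncomputable def ckC7 : Bool := allB 338 fun a => anyL (fun z =>
  has (rg (Nat.div z 4) (Nat.mod z 4)) (Nat.land (fm a) Dm)) brL

noncomputable def ckBr : Bool := allL (fun z => cond (Nat.ble (Nat.succ (Nat.div z 4)) 338)
  (Nat.ble 338 (nb (Nat.div z 4) (Nat.mod z 4))) false) brL

noncomputable def ckStar : Bool := allB 338 fun a => imp (has (fm a) (Nat.pow 2 76)) (allB 4 fun k =>
  imp (cond (Nat.beq (vt a k) 76) false true) (cond (Nat.ble (Nat.succ (nb a k)) 338)
    (Nat.beq (trn a k (svn a)) (svn (nb a k))) false))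

noncomputable def ckSv : Bool := allB 338 fun a => Nat.ble (Nat.succ (svn a)) 3

theorem ckV_ok : ckV = true := by decide +kernel
theorem ckN_ok : ckN = true := by decide +kernel
theorem ckI_ok : ckI = true := by decide +kernel
theorem ckT_ok : ckT = true := by decide +kernel
theorem ckOut_ok : ckOut = true := by decide +kernel
theorem ckF_ok : ckF = true := by decide +kernel
theorem ckBD_ok : ckBD = true := by decide +kernel
theorem ckD3_ok : ckD3 = true := by decide +kernel
theorem ckC7_ok : ckC7 = true := by decide +kernel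
theorem ckBr_ok : ckBr = true := by decide +kernel
theorem ckStar_ok : ckStar = true := by decide +kernel
theorem ckSv_ok : ckSv = true := by decide +kernel

end Pool.Agent.V11126.Ear
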