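import Pool.Agent.V11126.Ear.Check

/-!
Further Boolean checks: at most two facets at a ridge, the polytope, the walks around the edges, the
path, and the star of the vertex 76.
-/

namespace Pool.Agent.V11126.Ear

open Finset

theorem ckO_ok : ckO = true := by decide +kernel

/-- the polytope: `pq v j - 2 ^ 30` are the coordinates, `aq i j - AO` the normal of facet `i` -/
noncomputable def ckP : Bool := allB 394 fun i => cond (Nat.ble 1 (bq i)) (allB 77 fun v =>
  cond (has (fm i) (Nat.pow 2 v))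
    (Nat.beq (Nat.add (Nat.add (Nat.add (Nat.mul (aq i 0) (pq v 0)) (Nat.mul (aq i 1) (pq v 1)))
      (Nat.add (Nat.mul (aq i 2) (pq v 2)) (Nat.mul (aq i 3) (pq v 3))))
        (Nat.mul 4 (Nat.mul 1073741824 AO)))
      (Nat.add (bq i) (Nat.add
        (Nat.mul 1073741824 (Nat.add (Nat.add (aq i 0) (aq i 1)) (Nat.add (aq i 2) (aq i 3))))
        (Nat.mul AO (Nat.add (Nat.add (pq v 0) (pq v 1)) (Nat.add (pq v 2) (pq v 3)))))))
    (Nat.ble (Nat.succ (Nat.add (Nat.add (Nat.add (Nat.mul (aq i 0) (pq v 0))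
      (Nat.mul (aq i 1) (pq v 1))) (Nat.add (Nat.mul (aq i 2) (pq v 2))
        (Nat.mul (aq i 3) (pq v 3)))) (Nat.mul 4 (Nat.mul 1073741824 AO))))
      (Nat.add (bq i) (Nat.add
        (Nat.mul 1073741824 (Nat.add (Nat.add (aq i 0) (aq i 1)) (Nat.add (aq i 2) (aq i 3))))
        (Nat.mul AO (Nat.add (Nat.add (pq v 0) (pq v 1)) (Nat.add (pq v 2) (pq v 3)))))))) false

theorem ckP_ok : ckP = true := by decide +kernel

noncomputable def ckCov : Bool := allB 77 fun v => anyB 394 fun i => has (fm i) (Nat.pow 2 v)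

theorem ckCov_ok : ckCov = true := by decide +kernel

end Pool.Agent.V11126.Ear
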