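import Pool.Agent.V11126.Ear.Check

/-!
Boolean checks: the walks around the edges, the path, and the star of the vertex 76.
-/

namespace Pool.Agent.V11126.Ear

open Finset

noncomputable def walk (em a l : ℕ) (fuel : ℕ) : ℕ → ℕ → ℕ → ℕ → ℕ → Bool :=
  Nat.rec (motive := fun _ => ℕ → ℕ → ℕ → ℕ → ℕ → Bool) (fun _ _ _ _ _ => false)
    (fun _ ih p c u0 u1 u2 => cond (Nat.beq c (nb a l))
      (cond (Nat.beq u0 (trn a l 0)) (cond (Nat.beq u1 (trn a l 1)) (Nat.beq u2 (trn a l 2)) false)
        false)
      (anyB 4 fun k => cond (has em (Nat.pow 2 (vt c k))) false (cond (Nat.beq (nb c k) p) false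
        (cond (Nat.ble 338 (nb c k)) true (cond (Nat.beq (nb c k) a) false
          (ih c (nb c k) (trn c k u0) (trn c k u1) (trn c k u2)))))))
    fuel

/-- mask of the edge of `a` opposite to its vertices number `k`, `l` -/
def em (a k l : ℕ) : ℕ := Nat.xor (rg a k) (Nat.pow 2 (vt a l))

noncomputable def ckFl : Bool := allB 338 fun a => allB 4 fun k => imp (Nat.ble (Nat.succ (nb a k)) 338)
  (allB 4 fun l => imp (cond (Nat.beq k l) false true) (imp (Nat.ble (Nat.succ (nb a l)) 338)
    (cond (has (em a k l) (Nat.pow 2 76)) true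
      (walk (em a k l) a l 40 a (nb a k) (trn a k 0) (trn a k 1) (trn a k 2)))))

theorem ckFl_ok : ckFl = true := by decide +kernel

noncomputable def pth (ks : List ℕ) : ℕ → ℕ → Bool :=
  List.rec (motive := fun _ => ℕ → ℕ → Bool)
    (fun c u => cond (has (fm c) (Nat.pow 2 76)) (cond (Nat.beq u (svn c)) false true) false)
    (fun k _ ih c u => cond (Nat.ble (Nat.succ k) 4) (cond (Nat.ble (Nat.succ (nb c k)) 338)
      (ih (nb c k) (trn c k u)) false) false) ks

noncomputable def ckPa : Bool :=
  cond (has (fm 142) (Nat.pow 2 76)) (pth pathL 142 (svn 142)) false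

theorem ckPa_ok : ckPa = true := by decide +kernel

def st (l : ℕ) : ℕ := dig 0x1481470c60c50bf0be08f08e 12 l

noncomputable def okA (e j : ℕ) : Bool := allB 4 fun z =>
  imp (anyB 8 fun l => cond (has e (Nat.pow 2 l))
      (has (fm (st l)) (Nat.lor (Nat.pow 2 76) (Nat.pow 2 (vt (st j) z)))) false)
    (anyB 4 fun k => cond (has (Nat.lor (Nat.pow 2 76) (Nat.pow 2 (vt (st j) z)))
        (Nat.pow 2 (vt (st j) k))) false
      (anyB 8 fun l => cond (has e (Nat.pow 2 l)) (Nat.beq (st l) (nb (st j) k)) false))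

noncomputable def ckR : Bool := allB 256 fun e => imp (has RT (Nat.pow 2 e)) (allB 8 fun j =>
  imp (cond (has e (Nat.pow 2 j)) false true) (imp (okA e j)
    (cond (has RT (Nat.pow 2 (Nat.lor e (Nat.pow 2 j))))
      (cond (Nat.beq (Nat.lor e (Nat.pow 2 j)) 255) true
        (anyB 4 fun k => cond (Nat.beq (vt (st j) k) 76) false (anyB 8 fun l =>
          cond (has (Nat.lor e (Nat.pow 2 j)) (Nat.pow 2 l)) false
            (Nat.beq (st l) (nb (st j) k))))) false)))

theorem ckR_ok : ckR = true := by decide +kernel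

noncomputable def ckR0 : Bool := cond (has RT (Nat.pow 2 0))
  (cond (allB 8 fun l => cond (Nat.ble (Nat.succ (st l)) 338) (has (fm (st l)) (Nat.pow 2 76)) false)
    (cond (allB 8 fun l => allB 8 fun l' => imp (Nat.beq (st l) (st l')) (Nat.beq l l'))
      (allB 338 fun a => imp (has (fm a) (Nat.pow 2 76)) (anyB 8 fun l => Nat.beq (st l) a)) false)
    false) false

theorem ckR0_ok : ckR0 = true := by decide +kernel

end Pool.Agent.V11126.Ear
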