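import Mathlib

/-!
The combinatorial core: a ball with a knotted arc through an interior vertex `v` (the knottedness is
witnessed by a labelling of the interior ridges by permutations of three letters) has no facet order
which is a relative shelling of the ball modulo its boundary.
-/

namespace Pool.Agent.V11126.Ear

open Finset

section
variable (N : ℕ) (fac : ℕ → Finset ℕ) (vt nb : ℕ → ℕ → ℕ) (tr : ℕ → ℕ → Fin 3 → Fin 3)

/-- walks through the facets which contain `e` and are different from `a`, starting at `b` -/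
inductive Conn (e : Finset ℕ) (a b : ℕ) : ℕ → (Fin 3 → Fin 3) → Prop
  | refl : b < N → e ⊆ fac b → b ≠ a → Conn e a b b id
  | step (c k : ℕ) (T : Fin 3 → Fin 3) : Conn e a b c T → k < 4 → nb c k < N → e ⊆ fac (nb c k) →
      nb c k ≠ a → Conn e a b (nb c k) (tr c k ∘ T)

structure CoreData (v : ℕ) (sv : ℕ → Fin 3) : Prop where
  mem : ∀ a < N, ∀ k < 4, vt a k ∈ fac a
  surj : ∀ a < N, ∀ u ∈ fac a, ∃ k < 4, vt a k = u
  inj : ∀ a < N, ∀ k < 4, ∀ l < 4, vt a k = vt a l → k = l
  one : ∀ a < N, ∀ k < 4, ∀ b < N, (fac a).erase (vt a k) ⊆ fac b → b = a ∨ b = nb a k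
  nbs : ∀ a < N, ∀ k < 4, nb a k < N → nb a k ≠ a ∧ (fac a).erase (vt a k) ⊆ fac (nb a k) ∧
    ∃ l < 4, nb (nb a k) l = a ∧ ∀ t, tr (nb a k) l (tr a k t) = t
  flat : ∀ a < N, ∀ k < 4, ∀ l < 4, k ≠ l → nb a k < N → nb a l < N →
    v ∉ ((fac a).erase (vt a k)).erase (vt a l) →
    (∃ c < N, ∃ j < 4, N ≤ nb c j ∧ ((fac a).erase (vt a k)).erase (vt a l) ⊆ (fac c).erase (vt c j)) ∨
    ∃ T, Conn N fac nb tr (((fac a).erase (vt a k)).erase (vt a l)) a (nb a k) (nb a l) T ∧
      ∀ t, T (tr a k t) = tr a l t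
  star : ∀ a < N, v ∈ fac a → ∀ k < 4, vt a k ≠ v → nb a k < N ∧ tr a k (sv a) = sv (nb a k)
  path : ∃ a < N, ∃ b, v ∈ fac a ∧ v ∈ fac b ∧ ∃ T, Conn N fac nb tr ∅ N a b T ∧ T (sv a) ≠ sv b

variable (pos : ℕ → ℕ)

def Sec (n : ℕ) (s : ℕ → Fin 3) : Prop :=
  ∀ a < N, ∀ k < 4, n ≤ pos a → nb a k < N → n ≤ pos (nb a k) → tr a k (s a) = s (nb a k)

structure PosData (v : ℕ) : Prop where
  inj : ∀ a < N, ∀ b < N, pos a = pos b → a = b
  shell : ∀ a < N, ∀ t ⊆ fac a,
    ((∃ c < N, ∃ k < 4, N ≤ nb c k ∧ t ⊆ (fac c).erase (vt c k)) ∨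
      (∃ b < N, pos b < pos a ∧ t ⊆ fac b)) →
    ∃ k < 4, t ⊆ (fac a).erase (vt a k) ∧ (N ≤ nb a k ∨ pos (nb a k) < pos a)
  star : ∀ a < N, v ∈ fac a → (∃ c < N, v ∈ fac c ∧ pos a < pos c) →
    ∃ k < 4, vt a k ≠ v ∧ pos a < pos (nb a k)

variable {N fac vt nb tr pos} {v : ℕ} {sv : ℕ → Fin 3}

lemma Conn.lt {e : Finset ℕ} {a b c : ℕ} {T : Fin 3 → Fin 3} (h : Conn N fac nb tr e a b c T) :
    c < N := by
  induction h with
  | refl h _ _ => exact h
  | step c k T _ _ h _ _ _ => exact h

lemma Conn.sec {e : Finset ℕ} {a b c : ℕ} {T : Fin 3 → Fin 3} {n : ℕ} {s : ℕ → Fin 3}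
    (hs : Sec N nb tr pos n s) (hU : ∀ c < N, e ⊆ fac c → c ≠ a → n ≤ pos c)
    (h : Conn N fac nb tr e a b c T) : n ≤ pos c ∧ s c = T (s b) := by
  induction h with
  | refl h1 h2 h3 => exact ⟨hU _ h1 h2 h3, rfl⟩
  | step c k T hc hk h1 h2 h3 ih =>
    have h4 := hU _ h1 h2 h3
    refine ⟨h4, ?_⟩
    rw [← hs c hc.lt k hk ih.1 h1 h4, ih.2]
    rfl

lemma CoreData.trinj (h : CoreData N fac vt nb tr v sv) {a k : ℕ} (ha : a < N) (hk : k < 4)
    (hn : nb a k < N) : Function.Injective (tr a k) := by
  obtain ⟨_, _, l, _, _, hl⟩ := h.nbs a ha k hk hn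
  intro x y hxy
  rw [← hl x, ← hl y, hxy]

lemma CoreData.trsurj (h : CoreData N fac vt nb tr v sv) {a k : ℕ} (ha : a < N) (hk : k < 4)
    (hn : nb a k < N) (y : Fin 3) : ∃ x, tr a k x = y :=
  (Finite.surjective_of_injective (h.trinj ha hk hn)) y

/-- extension of a section to one more facet -/
lemma CoreData.ext (h : CoreData N fac vt nb tr v sv) (hp : PosData N fac vt nb pos v) {a n : ℕ}
    (ha : a < N) (hn : pos a = n) {s : ℕ → Fin 3} (hs : Sec N nb tr pos (n + 1) s) (t0 : Fin 3)
    (ht : ∀ k < 4, nb a k < N → n + 1 ≤ pos (nb a k) → tr a k t0 = s (nb a k)) :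
    Sec N nb tr pos n (Function.update s a t0) := by
  have hlt : ∀ b < N, b ≠ a → n ≤ pos b → n + 1 ≤ pos b := by
    intro b hb hba hnb
    rcases Nat.lt_or_ge n (pos b) with h1 | h1
    · exact h1
    · exact absurd (hp.inj b hb a ha (by omega)) hba
  intro b hb k hk hb1 hnb hnb1
  by_cases hba : b = a
  · subst hba
    have h1 := (h.nbs b hb k hk hnb).1
    rw [Function.update_self, Function.update_of_ne h1]
    exact ht k hk hnb (hlt _ hnb h1 hnb1)
  · rw [Function.update_of_ne hba]
    by_cases hca : nb b k = a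
    · rw [hca, Function.update_self]
      obtain ⟨_, _, l, hl, hl1, hl2⟩ := h.nbs b hb k hk hnb
      rw [hca] at hl1 hl2
      have h3 : nb a l < N := by rw [hl1]; exact hb
      have h2 := ht l hl h3 (by rw [hl1]; exact hlt _ hb hba hb1)
      rw [hl1] at h2
      apply h.trinj ha hl h3
      rw [hl2, h2]
    · rw [Function.update_of_ne hca]
      exact hs b hb k hk (hlt _ hb hba hb1) hnb (hlt _ hnb hca hnb1)

lemma CoreData.cons (h : CoreData N fac vt nb tr v sv) (hp : PosData N fac vt nb pos v) {a n : ℕ}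
    (ha : a < N) (hn : pos a = n) {s : ℕ → Fin 3} (hs : Sec N nb tr pos (n + 1) s) {k l : ℕ}
    (hk : k < 4) (hl : l < 4) (hkl : k ≠ l) (hk1 : nb a k < N) (hk2 : n + 1 ≤ pos (nb a k))
    (hl1 : nb a l < N) (hl2 : n + 1 ≤ pos (nb a l))
    (hv : v ∉ ((fac a).erase (vt a k)).erase (vt a l)) (t : Fin 3)
    (ht : tr a k t = s (nb a k)) : tr a l t = s (nb a l) := by
  have key : ¬ ((∃ c < N, ∃ j < 4, N ≤ nb c j ∧
      ((fac a).erase (vt a k)).erase (vt a l) ⊆ (fac c).erase (vt c j)) ∨
      (∃ b < N, pos b < pos a ∧ ((fac a).erase (vt a k)).erase (vt a l) ⊆ fac b)) := by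
    intro hcon
    obtain ⟨j, hj, hj1, hj2⟩ := hp.shell a ha _
      ((Finset.erase_subset _ _).trans (Finset.erase_subset _ _)) hcon
    have hjm := h.mem a ha j hj
    have hjk : j = k ∨ j = l := by
      by_contra hne
      push Not at hne
      have h1 : vt a j ∈ ((fac a).erase (vt a k)).erase (vt a l) := by
        rw [Finset.mem_erase, Finset.mem_erase]
        exact ⟨fun e => hne.2 (h.inj a ha j hj l hl e), fun e => hne.1 (h.inj a ha j hj k hk e), hjm⟩
      have h2 := hj1 h1
      simp at h2
    rcases hjk with rfl | rfl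
    · rcases hj2 with h3 | h3 <;> omega
    · rcases hj2 with h3 | h3 <;> omega
  push Not at key
  rcases h.flat a ha k hk l hl hkl hk1 hl1 hv with ⟨c, hc, j, hj, h1, h2⟩ | ⟨T, hT, hT2⟩
  · exact absurd h2 (key.1 c hc j hj h1)
  · have h3 := hT.sec hs (by
      intro c hc hec hca
      rcases Nat.lt_or_ge n (pos c) with h1 | h1
      · exact h1
      · exfalso
        refine key.2 c hc ?_ hec
        rcases Nat.lt_or_ge (pos c) n with h4 | h4
        · omega
        · exact absurd (hp.inj c hc a ha (by omega)) hca)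
    rw [h3.2, ← ht, hT2]

lemma CoreData.exT (h : CoreData N fac vt nb tr v sv) (hp : PosData N fac vt nb pos v) {a n : ℕ}
    (ha : a < N) (hn : pos a = n) (hva : v ∉ fac a) {s : ℕ → Fin 3}
    (hs : Sec N nb tr pos (n + 1) s) {k : ℕ} (hk : k < 4) (hk1 : nb a k < N)
    (hk2 : n + 1 ≤ pos (nb a k)) : ∃ t0, ∀ l < 4, nb a l < N → n + 1 ≤ pos (nb a l) →
      tr a l t0 = s (nb a l) := by
  obtain ⟨t0, ht0⟩ := h.trsurj ha hk hk1 (s (nb a k))
  refine ⟨t0, ?_⟩
  intro l hl hl1 hl2
  by_cases hkl : k = l
  · subst hkl; exact ht0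
  · refine h.cons hp ha hn hs hk hl hkl hk1 hk2 hl1 hl2 ?_ t0 ht0
    intro hmem
    exact hva (Finset.mem_of_mem_erase (Finset.mem_of_mem_erase hmem))

def Claim (N : ℕ) (fac : ℕ → Finset ℕ) (nb : ℕ → ℕ → ℕ) (tr : ℕ → ℕ → Fin 3 → Fin 3)
    (pos : ℕ → ℕ) (v : ℕ) (sv : ℕ → Fin 3) (n : ℕ) : Prop :=
  (∃ s, Sec N nb tr pos n s ∧ ∀ a < N, v ∈ fac a → n ≤ pos a → s a = sv a) ∧
  ((∀ a < N, v ∈ fac a → pos a < n) → ∃ S : Fin 3 → ℕ → Fin 3, (∀ i, Sec N nb tr pos n (S i)) ∧
    ∀ a < N, n ≤ pos a → Function.Injective (fun i => S i a))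

lemma CoreData.claimStep (h : CoreData N fac vt nb tr v sv) (hp : PosData N fac vt nb pos v) (n : ℕ)
    (hc : Claim N fac nb tr pos v sv (n + 1)) : Claim N fac nb tr pos v sv n := by
  by_cases hex : ∃ a < N, pos a = n
  · obtain ⟨a, ha, hn⟩ := hex
    have hlt : ∀ b < N, b ≠ a → n ≤ pos b → n + 1 ≤ pos b := by
      intro b hb hba hnb
      rcases Nat.lt_or_ge n (pos b) with h1 | h1
      · exact h1
      · exact absurd (hp.inj b hb a ha (by omega)) hba
    obtain ⟨⟨s, hs, hsv⟩, hA⟩ := hc
    by_cases hva : v ∈ fac a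
    · refine ⟨?_, fun hcon => absurd (hcon a ha hva) (by omega)⟩
      obtain ⟨kv, hkv, hkv1⟩ := h.surj a ha v hva
      by_cases hlater : ∃ k < 4, vt a k ≠ v ∧ n < pos (nb a k)
      · obtain ⟨k', hk', hk'1, hk'2⟩ := hlater
        have hgood : ∀ k < 4, vt a k ≠ v → n + 1 ≤ pos (nb a k) → tr a k (sv a) = s (nb a k) := by
          intro k hk hkv hk2
          obtain ⟨h1, h2⟩ := h.star a ha hva k hk hkv
          rw [h2, hsv (nb a k) h1 _ hk2]
          apply (h.nbs a ha k hk h1).2.1
          rw [Finset.mem_erase]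
          exact ⟨fun e => hkv e.symm, hva⟩
        refine ⟨Function.update s a (sv a), h.ext hp ha hn hs (sv a) ?_, ?_⟩
        · intro k hk hk1 hk2
          by_cases hkv' : vt a k = v
          · have hne : k' ≠ k := by
              rintro rfl
              exact hk'1 hkv'
            refine h.cons hp ha hn hs hk' hk hne (h.star a ha hva k' hk' hk'1).1 hk'2 hk1 hk2 ?_
              (sv a) (hgood k' hk' hk'1 hk'2)
            intro hmem
            rw [Finset.mem_erase] at hmem
            exact hmem.1 hkv'.symm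
          · exact hgood k hk hkv' hk2
        · intro b hb hvb hnb
          by_cases hba : b = a
          · subst hba; rw [Function.update_self]
          · rw [Function.update_of_ne hba]
            exact hsv b hb hvb (hlt b hb hba hnb)
      · have hno : ∀ c < N, v ∈ fac c → pos c < n + 1 := by
          intro c hc hvc
          by_contra hcon
          push Not at hcon
          apply hlater
          obtain ⟨k, hk, hk1, hk2⟩ := hp.star a ha hva ⟨c, hc, hvc, by omega⟩
          exact ⟨k, hk, hk1, by omega⟩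
        obtain ⟨S, hS, hSi⟩ := hA hno
        push Not at hlater
        have hagree : ∀ t : ℕ → Fin 3, ∀ b < N, v ∈ fac b → n ≤ pos b →
            Function.update t a (sv a) b = sv b := by
          intro t b hb hvb hnb
          by_cases hba : b = a
          · subst hba; rw [Function.update_self]
          · have := hlt b hb hba hnb
            have := hno b hb hvb
            omega
        by_cases hkl : nb a kv < N ∧ n + 1 ≤ pos (nb a kv)
        · obtain ⟨i, hi⟩ := Finite.surjective_of_injective (hSi (nb a kv) hkl.1 hkl.2) (tr a kv (sv a))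
          refine ⟨Function.update (S i) a (sv a), h.ext hp ha hn (hS i) (sv a) ?_, hagree (S i)⟩
          intro k hk hk1 hk2
          by_cases hkv' : vt a k = v
          · have : k = kv := h.inj a ha k hk kv hkv (by rw [hkv', hkv1])
            subst this
            exact hi.symm
          · have := hlater k hk hkv'
            omega
        · refine ⟨Function.update (S 0) a (sv a), h.ext hp ha hn (hS 0) (sv a) ?_, hagree (S 0)⟩
          intro k hk hk1 hk2
          by_cases hkv' : vt a k = v
          · have : k = kv := h.inj a ha k hk kv hkv (by rw [hkv', hkv1])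
            subst this
            exact absurd ⟨hk1, hk2⟩ hkl
          · have := hlater k hk hkv'
            omega
    · by_cases hlater : ∃ k < 4, nb a k < N ∧ n + 1 ≤ pos (nb a k)
      · obtain ⟨k, hk, hk1, hk2⟩ := hlater
        constructor
        · obtain ⟨t0, ht0⟩ := h.exT hp ha hn hva hs hk hk1 hk2
          refine ⟨Function.update s a t0, h.ext hp ha hn hs t0 ht0, ?_⟩
          intro b hb hvb hnb
          have hba : b ≠ a := by rintro rfl; exact hva hvb
          rw [Function.update_of_ne hba]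
          exact hsv b hb hvb (hlt b hb hba hnb)
        · intro hno
          obtain ⟨S, hS, hSi⟩ := hA (fun c hc hvc => (hno c hc hvc).trans (Nat.lt_succ_self n))
          have hex : ∀ i, ∃ t0, ∀ l < 4, nb a l < N → n + 1 ≤ pos (nb a l) →
            tr a l t0 = (S i) (nb a l) := fun i => h.exT hp ha hn hva (hS i) hk hk1 hk2
          choose t0 ht0 using hex
          refine ⟨fun i => Function.update (S i) a (t0 i), fun i => h.ext hp ha hn (hS i) _ (ht0 i), ?_⟩
          intro b hb hnb
          by_cases hba : b = a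
          · subst hba
            intro i j hij
            simp only [Function.update_self] at hij
            apply hSi (nb b k) hk1 hk2
            simp only
            rw [← ht0 i k hk hk1 hk2, ← ht0 j k hk hk1 hk2, hij]
          · simp only [Function.update_of_ne hba]
            exact hSi b hb (hlt b hb hba hnb)
      · push Not at hlater
        constructor
        · refine ⟨Function.update s a 0, h.ext hp ha hn hs 0 ?_, ?_⟩
          · intro k hk hk1 hk2
            have := hlater k hk hk1
            omega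
          · intro b hb hvb hnb
            have hba : b ≠ a := by rintro rfl; exact hva hvb
            rw [Function.update_of_ne hba]
            exact hsv b hb hvb (hlt b hb hba hnb)
        · intro hno
          obtain ⟨S, hS, hSi⟩ := hA (fun c hc hvc => (hno c hc hvc).trans (Nat.lt_succ_self n))
          refine ⟨fun i => Function.update (S i) a i, fun i => h.ext hp ha hn (hS i) _ ?_, ?_⟩
          · intro k hk hk1 hk2
            have := hlater k hk hk1
            omega
          · intro b hb hnb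
            by_cases hba : b = a
            · subst hba
              intro i j hij
              simpa only [Function.update_self] using hij
            · simp only [Function.update_of_ne hba]
              exact hSi b hb (hlt b hb hba hnb)
  · push Not at hex
    have hiff : ∀ b < N, (n ≤ pos b ↔ n + 1 ≤ pos b) := by
      intro b hb
      have := hex b hb
      omega
    have hsec : ∀ s, Sec N nb tr pos (n + 1) s → Sec N nb tr pos n s := by
      intro s hs b hb k hk h1 h2 h3
      exact hs b hb k hk ((hiff b hb).1 h1) h2 ((hiff _ h2).1 h3)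
    obtain ⟨⟨s, hs, hsv⟩, hA⟩ := hc
    refine ⟨⟨s, hsec s hs, fun a ha hva hna => hsv a ha hva ((hiff a ha).1 hna)⟩, ?_⟩
    intro hno
    obtain ⟨S, hS, hSi⟩ := hA (fun c hc hvc => (hno c hc hvc).trans (Nat.lt_succ_self n))
    exact ⟨S, fun i => hsec _ (hS i), fun a ha hna => hSi a ha ((hiff a ha).1 hna)⟩

theorem CoreData.false (h : CoreData N fac vt nb tr v sv) (hp : PosData N fac vt nb pos v) :
    False := by
  have hM : ∃ M, ∀ a < N, pos a < M := by
    refine ⟨(Finset.range N).sup pos + 1, fun a ha => ?_⟩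
    have := Finset.le_sup (f := pos) (Finset.mem_range.2 ha)
    omega
  obtain ⟨M, hM⟩ := hM
  have base : Claim N fac nb tr pos v sv M := by
    refine ⟨⟨fun _ => 0, ?_, ?_⟩, fun _ => ⟨fun i _ => i, ?_, ?_⟩⟩
    · intro a ha k hk h1
      have := hM a ha
      omega
    · intro a ha _ h1
      have := hM a ha
      omega
    · intro i a ha k hk h1
      have := hM a ha
      omega
    · intro a ha h1
      have := hM a ha
      omega
  have all : ∀ j n, n + j = M → Claim N fac nb tr pos v sv n := by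
    intro j
    induction j with
    | zero => intro n hn; simp at hn; subst hn; exact base
    | succ j ih =>
      intro n hn
      exact h.claimStep hp n (ih (n + 1) (by omega))
  obtain ⟨⟨s, hs, hsv⟩, _⟩ := all M 0 (by omega)
  obtain ⟨a, ha, b, hva, hvb, T, hT, hne⟩ := h.path
  have h1 := hT.sec (pos := pos) (n := 0) hs (fun _ _ _ _ => Nat.zero_le _)
  apply hne
  rw [← hsv a ha hva (Nat.zero_le _), ← hsv b hT.lt hvb (Nat.zero_le _)]
  exact h1.2.symm

end

end Pool.Agent.V11126.Ear
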