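import Mathlib

/-!
Definitions for MP_cf6e1a_co: simplicial complexes with a convex ear decomposition, and shellability.
Simplicial complexes are finite sets of finite sets of vertices (the faces, among them the empty set).
-/

namespace Pool.Agent.V11126.Ear

/-- `K` is a finite abstract simplicial complex which is pure of dimension `d - 1`: it contains the
empty set, it is closed under taking subsets, and every face is contained in a face with `d` vertices
(so that the facets are the faces with `d` vertices). -/
def IsPure {V : Type} (d : ℕ) (K : Finset (Finset V)) : Prop :=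
  ∅ ∈ K ∧ (∀ s ∈ K, ∀ t, t ⊆ s → t ∈ K) ∧ ∀ s ∈ K, ∃ f ∈ K, s ⊆ f ∧ f.card = d

/-- The boundary complex of the pure `(d - 1)`-dimensional complex `K`: the complex generated by the
faces with `d - 1` vertices which are contained in exactly one facet. -/
def boundary {V : Type} (d : ℕ) (K : Finset (Finset V)) : Set (Finset V) :=
  {s | ∃ r : Finset V, s ⊆ r ∧ r.card + 1 = d ∧ ∃! f : Finset V, f ∈ K ∧ f.card = d ∧ r ⊆ f}

/-- `K` is the boundary complex of a simplicial `d`-polytope, whose vertices are labelled by a finite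
set `W ⊆ V` (the vertex with label `v` is the point `p v`): the polytope, which is the convex hull of
the points `p v` with `v ∈ W`, is not contained in a hyperplane; every `p v` is a vertex; the faces
of `K` are the vertex sets of the proper faces of the polytope, that is the proper subsets `s` of `W`
for which some linear functional takes its maximum over the points `p v`, `v ∈ W`, exactly at those
with `v ∈ s`; and all of them are simplices. -/
def IsPolytopeBoundary {V : Type} (d : ℕ) (K : Finset (Finset V)) : Prop :=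
  ∃ (W : Finset V) (p : V → (Fin d → ℝ)),
    (∀ (l : (Fin d → ℝ) →ₗ[ℝ] ℝ) (c : ℝ), (∀ v ∈ W, l (p v) = c) → l = 0) ∧
    (∀ v ∈ W, {v} ∈ K) ∧
    (∀ s ∈ K, AffineIndependent ℝ (fun v : s => p v)) ∧
    ∀ s : Finset V, s ∈ K ↔ s ⊂ W ∧ ∃ (l : (Fin d → ℝ) →ₗ[ℝ] ℝ) (c : ℝ),
      (∀ v ∈ s, l (p v) = c) ∧ ∀ v ∈ W, v ∉ s → l (p v) < c

/-- The geometric realization of `K`, with barycentric coordinates. -/
def realization {V : Type} (K : Finset (Finset V)) : Set (V → ℝ) :=
  {x | (∀ v, 0 ≤ x v) ∧ ∃ s ∈ K, (∀ v, v ∉ s → x v = 0) ∧ ∑ v ∈ s, x v = 1}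

/-- `K` is a simplicial ball of dimension `n`: its geometric realization is homeomorphic to the closed
unit ball of Euclidean `n`-space. -/
def IsBall {V : Type} (n : ℕ) (K : Finset (Finset V)) : Prop :=
  Nonempty (realization K ≃ₜ Metric.closedBall (0 : EuclideanSpace ℝ (Fin n)) 1)

/-- `Δ` admits a convex ear decomposition `S 0, S 1, ..., S m`: all `S j` are pure of dimension
`d - 1`; `S 0` is the boundary complex of a simplicial `d`-polytope; for `j ≥ 1`, `S j` is a ball of
dimension `d - 1` and a proper subcomplex of the boundary complex of a simplicial `d`-polytope, and it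
meets the union of the earlier ones exactly in its boundary complex; and `Δ` is the union of all. -/
def HasConvexEarDecomposition {V : Type} (d : ℕ) (Δ : Finset (Finset V)) : Prop :=
  ∃ (m : ℕ) (S : ℕ → Finset (Finset V)),
    (∀ j ≤ m, IsPure d (S j)) ∧
    IsPolytopeBoundary d (S 0) ∧
    (∀ j, 1 ≤ j → j ≤ m →
      IsBall (d - 1) (S j) ∧ (∃ T : Finset (Finset V), IsPolytopeBoundary d T ∧ S j ⊂ T) ∧
      {s | s ∈ S j ∧ ∃ i < j, s ∈ S i} = boundary d (S j)) ∧
    ∀ s, s ∈ Δ ↔ ∃ j ≤ m, s ∈ S j

/-- `Δ` (pure of dimension `d - 1`) is shellable: its facets can be ordered `F 0, F 1, ...` so that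
for every `j ≥ 1` the complex of the faces which `F j` has in common with earlier facets is pure of
dimension `d - 2`: each of these faces is contained in one with `d - 1` vertices. -/
def Shellable {V : Type} (d : ℕ) (Δ : Finset (Finset V)) : Prop :=
  ∃ F : List (Finset V), F.Nodup ∧ (∀ s, s ∈ F ↔ s ∈ Δ ∧ s.card = d) ∧
    ∀ (j : ℕ) (hj : j < F.length), 0 < j → ∀ t ⊆ F[j],
      (∃ (i : ℕ) (hi : i < j), t ⊆ F[i]) →
        ∃ r : Finset V, t ⊆ r ∧ r ⊆ F[j] ∧ r.card + 1 = d ∧ ∃ (k : ℕ) (hk : k < j), r ⊆ F[k]

end Pool.Agent.V11126.Ear
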