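import Pool.Agent.V11126.Ear.Inst2
import Pool.Agent.V11126.Ear.ChainA
import Pool.Agent.V11126.Ear.ChainB

/-!
The ball is a ball; the final statement.
-/

namespace Pool.Agent.V11126.Ear

open Finset

noncomputable def ckL1 : Bool := allL (fun m => cond (Nat.ble (Nat.succ m) (Nat.pow 2 128))
  (anyB 338 fun a => Nat.beq (fm a) m) false) cL0

noncomputable def ckL2 : Bool := allB 338 fun a => memL (fm a) cL0

theorem ckL1_ok : ckL1 = true := by decide +kernel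
theorem ckL2_ok : ckL2 = true := by decide +kernel

noncomputable def ckE : Bool := eqL cL7 [Nat.lor (2 ^ 0) (Nat.lor (2 ^ 77) (Nat.lor (2 ^ 79) (2 ^ 82)))]

theorem ckE_ok : ckE = true := by decide +kernel

theorem isBall (i : ℕ) : IsBall 3 (cplx 338 fac (rho (toF Dm) i)) := by
  unfold IsBall
  have h1 := ckL1_ok
  unfold ckL1 at h1
  simp only [allL_iff, and_iff', blt_iff, anyB_iff, nbeq_iff] at h1
  have h2 := ckL2_ok
  unfold ckL2 at h2
  simp only [allB_iff, memL_iff] at h2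
  obtain ⟨e0⟩ := relabel_homeo (N := 338) (fac := fac) (ρ := rho (toF Dm) i) (rho_fst i) cL0
    (fun m hm => (h1 m hm).1)
    (fun m hm => by
      obtain ⟨a, ha, h3⟩ := (h1 m hm).2
      exact ⟨a, ha, by unfold fac; rw [h3]⟩)
    (fun a ha => ⟨fm a, h2 a ha, rfl⟩)
  obtain ⟨f0⟩ := runM_homeo _ _ _ cT0
  obtain ⟨f1⟩ := runM_homeo _ _ _ cT1
  obtain ⟨f2⟩ := runM_homeo _ _ _ cT2
  obtain ⟨f3⟩ := runM_homeo _ _ _ cT3
  obtain ⟨f4⟩ := runM_homeo _ _ _ cT4
  obtain ⟨f5⟩ := runM_homeo _ _ _ cT5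
  obtain ⟨f6⟩ := runM_homeo _ _ _ cT6
  have h7 : cL7 = [Nat.lor (2 ^ 0) (Nat.lor (2 ^ 77) (Nat.lor (2 ^ 79) (2 ^ 82)))] := eqL_eq ckE_ok
  obtain ⟨g⟩ := simplex_ball (Nat.lor (2 ^ 0) (Nat.lor (2 ^ 77) (Nat.lor (2 ^ 79) (2 ^ 82)))) 0 77 79 82
    (by norm_num) (by norm_num) (by norm_num) (by norm_num) (by norm_num) (by norm_num)
    ⟨by norm_num, by norm_num, by norm_num, by norm_num⟩ (by
      intro v
      have h8 : Nat.lor (2 ^ 0) (Nat.lor (2 ^ 77) (Nat.lor (2 ^ 79) (2 ^ 82))) =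
        2 ^ 0 ||| (2 ^ 77 ||| (2 ^ 79 ||| 2 ^ 82)) := rfl
      rw [h8]
      simp only [Nat.testBit_or, Nat.testBit_two_pow, Bool.or_eq_true, decide_eq_true_iff]
      constructor
      · rintro (h | h | h | h) <;> simp [← h]
      · rintro (h | h | h | h) <;> simp [h])
  rw [← h7] at g
  exact ⟨e0.trans (f0.trans (f1.trans (f2.trans (f3.trans (f4.trans (f5.trans (f6.trans g)))))))⟩

theorem main : ∃ Δ : Finset (Finset (ℕ × ℕ)),
    IsPure 4 Δ ∧ HasConvexEarDecomposition 4 Δ ∧ ¬ Shellable 4 Δ := by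
  refine ⟨whole 338 394 fac (toF Dm) (2 ^ (toF Dm).card + 1), ?_, ?_, ?_⟩
  · exact (glueData.ear poly isBall _).1
  · exact (glueData.ear poly isBall _).2
  · exact glueData.notShellable coreData starLemma (Nat.lt_succ_self _)

end Pool.Agent.V11126.Ear
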