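import Pool.Agent.V11126.Ear.Defs
import Pool.Agent.V11126.Ear.Core

/-!
Gluing many copies of the ball `B` (the first `N` facets) to the sphere `S` (the first `M` facets),
and the pigeonhole argument.
-/

namespace Pool.Agent.V11126.Ear

open Finset

section
variable (N M : ℕ) (fac : ℕ → Finset ℕ) (vt nb : ℕ → ℕ → ℕ) (D : Finset ℕ)

/-- the complex generated by the first `n` facets, with vertices renamed by `ρ` -/
def cplx (n : ℕ) (fac : ℕ → Finset ℕ) (ρ : ℕ → ℕ × ℕ) : Finset (Finset (ℕ × ℕ)) :=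
  (Finset.range n).biUnion fun a => ((fac a).image ρ).powerset

/-- the names of the vertices in the `i`-th copy -/
def rho (D : Finset ℕ) (i v : ℕ) : ℕ × ℕ := if v ∈ D then (v, 0) else (v, i)

structure GlueData : Prop where
  npos : 0 < N
  nm : N < M
  crd : ∀ a < M, (fac a).card = 4
  out : ∀ a < N, ¬ fac N ⊆ fac a
  finj : ∀ a < N, ∀ b < N, fac a ⊆ fac b → a = b
  mem : ∀ a < N, ∀ k < 4, vt a k ∈ fac a
  surj : ∀ a < N, ∀ u ∈ fac a, ∃ k < 4, vt a k = u
  inj : ∀ a < N, ∀ k < 4, ∀ l < 4, vt a k = vt a l → k = l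
  one : ∀ a < N, ∀ k < 4, ∀ b < N, (fac a).erase (vt a k) ⊆ fac b → b = a ∨ b = nb a k
  nbs : ∀ a < N, ∀ k < 4, nb a k < N → nb a k ≠ a ∧ (fac a).erase (vt a k) ⊆ fac (nb a k)
  bdD : ∀ a < N, ∀ k < 4, N ≤ nb a k → (fac a).erase (vt a k) ⊆ D
  c7 : ∀ a < N, ∃ c < N, ∃ k < 4, N ≤ nb c k ∧ fac a ∩ D ⊆ (fac c).erase (vt c k)
  d3 : ∀ a < N, ∀ k < 4, (fac a).erase (vt a k) ⊆ D → N ≤ nb a k

variable {N M fac vt nb D}

lemma rho_fst (i v : ℕ) : (rho D i v).1 = v := by
  unfold rho; split_ifs <;> rfl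

lemma rho_inj (i : ℕ) : Function.Injective (rho D i) := by
  intro a b h
  rw [← rho_fst (D := D) i a, ← rho_fst (D := D) i b, h]

lemma rho_mem {i v : ℕ} (h : v ∈ D) : rho D i v = (v, 0) := by
  unfold rho; rw [if_pos h]

lemma rho_notMem {i v : ℕ} (h : v ∉ D) : rho D i v = (v, i) := by
  unfold rho; rw [if_neg h]

lemma rho_eq {i j u v : ℕ} (hij : i ≠ j) (h : rho D i u = rho D j v) : u = v ∧ u ∈ D := by
  have h1 : u = v := by
    rw [← rho_fst (D := D) i u, ← rho_fst (D := D) j v, h]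
  subst h1
  refine ⟨rfl, ?_⟩
  by_contra hu
  rw [rho_notMem hu, rho_notMem hu] at h
  exact hij (congrArg Prod.snd h)

lemma mem_cplx {n : ℕ} {ρ : ℕ → ℕ × ℕ} {s : Finset (ℕ × ℕ)} :
    s ∈ cplx n fac ρ ↔ ∃ a < n, s ⊆ (fac a).image ρ := by
  unfold cplx
  simp only [Finset.mem_biUnion, Finset.mem_range, Finset.mem_powerset]

lemma image_sub_iff {ρ : ℕ → ℕ × ℕ} (hρ : Function.Injective ρ) {s t : Finset ℕ} :
    s.image ρ ⊆ t.image ρ ↔ s ⊆ t := by
  constructor
  · intro h x hx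
    have := h (Finset.mem_image_of_mem ρ hx)
    rw [Finset.mem_image] at this
    obtain ⟨y, hy, hxy⟩ := this
    exact hρ hxy ▸ hy
  · exact Finset.image_subset_image

/-- faces of two different copies which coincide have all vertices in `D` -/
lemma common {i j : ℕ} (hij : i ≠ j) {s t : Finset ℕ} (h : s.image (rho D i) ⊆ t.image (rho D j)) :
    s ⊆ D := by
  intro x hx
  have := h (Finset.mem_image_of_mem _ hx)
  rw [Finset.mem_image] at this
  obtain ⟨y, _, hxy⟩ := this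
  exact (rho_eq hij hxy.symm).2

lemma card_img (i : ℕ) (s : Finset ℕ) : (s.image (rho D i)).card = s.card :=
  Finset.card_image_of_injective _ (rho_inj i)

lemma pure_cplx {n : ℕ} (hn : 0 < n) (hc : ∀ a < n, (fac a).card = 4) (i : ℕ) :
    IsPure 4 (cplx n fac (rho D i)) := by
  refine ⟨?_, ?_, ?_⟩
  · rw [mem_cplx]
    exact ⟨0, hn, Finset.empty_subset _⟩
  · intro s hs t hts
    rw [mem_cplx] at hs ⊢
    obtain ⟨a, ha, hsa⟩ := hs
    exact ⟨a, ha, hts.trans hsa⟩
  · intro s hs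
    rw [mem_cplx] at hs
    obtain ⟨a, ha, hsa⟩ := hs
    refine ⟨(fac a).image (rho D i), ?_, hsa, ?_⟩
    · rw [mem_cplx]; exact ⟨a, ha, Finset.Subset.refl _⟩
    · rw [card_img, hc a ha]

/-- facets of the complex -/
lemma facet_cplx {n : ℕ} (hc : ∀ a < n, (fac a).card = 4) (i : ℕ) {f : Finset (ℕ × ℕ)}
    (hf : f ∈ cplx n fac (rho D i)) (h4 : f.card = 4) : ∃ a < n, f = (fac a).image (rho D i) := by
  rw [mem_cplx] at hf
  obtain ⟨a, ha, hfa⟩ := hf
  refine ⟨a, ha, Finset.eq_of_subset_of_card_le hfa ?_⟩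
  rw [card_img, hc a ha, h4]

/-- a subset of a facet with three elements is a ridge -/
lemma GlueData.ridge (h : GlueData N M fac vt nb D) {a : ℕ} (ha : a < N) (i : ℕ)
    {r : Finset (ℕ × ℕ)} (hr : r ⊆ (fac a).image (rho D i)) (h3 : r.card + 1 = 4) :
    ∃ k < 4, r = ((fac a).erase (vt a k)).image (rho D i) := by
  have h1 : r ≠ (fac a).image (rho D i) := by
    intro e
    rw [e, card_img, h.crd a (ha.trans h.nm)] at h3
    omega
  obtain ⟨y, hy, hyr⟩ := Finset.exists_of_ssubset (Finset.ssubset_iff_subset_ne.2 ⟨hr, h1⟩)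
  rw [Finset.mem_image] at hy
  obtain ⟨u, hu, rfl⟩ := hy
  obtain ⟨k, hk, rfl⟩ := h.surj a ha u hu
  refine ⟨k, hk, Finset.eq_of_subset_of_card_le ?_ ?_⟩
  · intro z hz
    have h2 := hr hz
    rw [Finset.mem_image] at h2 ⊢
    obtain ⟨w, hw, rfl⟩ := h2
    refine ⟨w, ?_, rfl⟩
    rw [Finset.mem_erase]
    refine ⟨?_, hw⟩
    rintro rfl
    exact hyr hz
  · rw [card_img, Finset.card_erase_of_mem hu, h.crd a (ha.trans h.nm)]
    omega

lemma GlueData.boundary_iff (h : GlueData N M fac vt nb D) (i : ℕ) (s : Finset (ℕ × ℕ)) :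
    s ∈ boundary 4 (cplx N fac (rho D i)) ↔
      ∃ c < N, ∃ k < 4, N ≤ nb c k ∧ s ⊆ ((fac c).erase (vt c k)).image (rho D i) := by
  have hcN : ∀ a < N, (fac a).card = 4 := fun a ha => h.crd a (ha.trans h.nm)
  constructor
  · rintro ⟨r, hsr, hr3, f, ⟨hf1, hf2, hf3⟩, huni⟩
    obtain ⟨a, ha, rfl⟩ := facet_cplx hcN i hf1 hf2
    obtain ⟨k, hk, rfl⟩ := h.ridge ha i hf3 hr3
    refine ⟨a, ha, k, hk, ?_, hsr⟩
    by_contra hlt
    push Not at hlt
    obtain ⟨h1, h2⟩ := h.nbs a ha k hk hlt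
    have h3 := huni ((fac (nb a k)).image (rho D i)) ⟨?_, ?_, Finset.image_subset_image h2⟩
    · have h4 := h.finj (nb a k) hlt a ha ((image_sub_iff (rho_inj i)).1 h3.le)
      exact h1 h4
    · rw [mem_cplx]; exact ⟨nb a k, hlt, Finset.Subset.refl _⟩
    · rw [card_img, hcN _ hlt]
  · rintro ⟨c, hc, k, hk, hN, hs⟩
    refine ⟨_, hs, ?_, (fac c).image (rho D i), ⟨?_, ?_, Finset.image_subset_image (Finset.erase_subset _ _)⟩, ?_⟩
    · rw [card_img, Finset.card_erase_of_mem (h.mem c hc k hk), hcN c hc]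
    · rw [mem_cplx]; exact ⟨c, hc, Finset.Subset.refl _⟩
    · rw [card_img, hcN c hc]
    · rintro f ⟨hf1, hf2, hf3⟩
      obtain ⟨b, hb, rfl⟩ := facet_cplx hcN i hf1 hf2
      rcases h.one c hc k hk b hb ((image_sub_iff (rho_inj i)).1 hf3) with rfl | h1
      · rfl
      · omega

/-- the pieces of the decomposition -/
def piece (N M : ℕ) (fac : ℕ → Finset ℕ) (D : Finset ℕ) (j : ℕ) : Finset (Finset (ℕ × ℕ)) :=
  if j = 0 then cplx M fac (rho D 0) else cplx N fac (rho D j)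

lemma mem_piece (hNM : N < M) {j : ℕ} {s : Finset (ℕ × ℕ)} (hs : s ∈ piece N M fac D j) :
    ∃ a < M, s ⊆ (fac a).image (rho D j) ∧ (j ≠ 0 → a < N) := by
  unfold piece at hs
  split_ifs at hs with h0
  · rw [mem_cplx] at hs
    obtain ⟨a, ha, hs⟩ := hs
    subst h0
    exact ⟨a, ha, hs, fun h => absurd rfl h⟩
  · rw [mem_cplx] at hs
    obtain ⟨a, ha, hs⟩ := hs
    exact ⟨a, ha.trans hNM, hs, fun _ => ha⟩

lemma GlueData.meet (h : GlueData N M fac vt nb D) (j : ℕ) (hj : 1 ≤ j) :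
    {s | s ∈ piece N M fac D j ∧ ∃ i < j, s ∈ piece N M fac D i} =
      boundary 4 (piece N M fac D j) := by
  have hj0 : j ≠ 0 := by omega
  have hpj : piece N M fac D j = cplx N fac (rho D j) := by
    unfold piece; rw [if_neg hj0]
  rw [hpj]
  apply Set.ext
  intro s
  rw [h.boundary_iff j s]
  constructor
  · rintro ⟨hs, i, hij, hsi⟩
    rw [mem_cplx] at hs
    obtain ⟨a, ha, hsa⟩ := hs
    obtain ⟨b, _, hsb, _⟩ := mem_piece h.nm hsi
    obtain ⟨c, hc, k, hk, hN, hsub⟩ := h.c7 a ha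
    refine ⟨c, hc, k, hk, hN, ?_⟩
    intro z hz
    have h1 := hsa hz
    have h2 := hsb hz
    rw [Finset.mem_image] at h1 h2 ⊢
    obtain ⟨u, hu, rfl⟩ := h1
    obtain ⟨w, hw, hw2⟩ := h2
    have h3 := (rho_eq (by omega : i ≠ j) hw2)
    refine ⟨u, hsub ?_, rfl⟩
    rw [Finset.mem_inter]
    exact ⟨hu, h3.1 ▸ h3.2⟩
  · rintro ⟨c, hc, k, hk, hN, hs⟩
    refine ⟨?_, 0, by omega, ?_⟩
    · rw [mem_cplx]
      exact ⟨c, hc, hs.trans (Finset.image_subset_image (Finset.erase_subset _ _))⟩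
    · unfold piece
      rw [if_pos rfl, mem_cplx]
      refine ⟨c, hc.trans h.nm, ?_⟩
      intro z hz
      have h1 := hs hz
      rw [Finset.mem_image] at h1 ⊢
      obtain ⟨u, hu, rfl⟩ := h1
      have h2 := h.bdD c hc k hk hN hu
      exact ⟨u, Finset.mem_of_mem_erase hu, by rw [rho_mem h2, rho_mem h2]⟩

/-- the whole complex: a sphere and `m` copies of the ball -/
def whole (N M : ℕ) (fac : ℕ → Finset ℕ) (D : Finset ℕ) (m : ℕ) : Finset (Finset (ℕ × ℕ)) :=
  (Finset.range (m + 1)).biUnion (piece N M fac D)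

lemma mem_whole {m : ℕ} {s : Finset (ℕ × ℕ)} :
    s ∈ whole N M fac D m ↔ ∃ j ≤ m, s ∈ piece N M fac D j := by
  unfold whole
  simp only [Finset.mem_biUnion, Finset.mem_range, Nat.lt_succ_iff]

lemma GlueData.pure_piece (h : GlueData N M fac vt nb D) (j : ℕ) :
    IsPure 4 (piece N M fac D j) := by
  unfold piece
  split_ifs
  · exact pure_cplx (h.npos.trans h.nm) h.crd 0
  · exact pure_cplx h.npos (fun a ha => h.crd a (ha.trans h.nm)) j

theorem GlueData.ear (h : GlueData N M fac vt nb D)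
    (hpoly : ∀ i, IsPolytopeBoundary 4 (cplx M fac (rho D i)))
    (hball : ∀ i, IsBall 3 (cplx N fac (rho D i))) (m : ℕ) :
    IsPure 4 (whole N M fac D m) ∧ HasConvexEarDecomposition 4 (whole N M fac D m) := by
  constructor
  · refine ⟨?_, ?_, ?_⟩
    · rw [mem_whole]
      exact ⟨0, Nat.zero_le _, (h.pure_piece 0).1⟩
    · intro s hs t hts
      rw [mem_whole] at hs ⊢
      obtain ⟨j, hj, hs⟩ := hs
      exact ⟨j, hj, (h.pure_piece j).2.1 s hs t hts⟩
    · intro s hs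
      rw [mem_whole] at hs
      obtain ⟨j, hj, hs⟩ := hs
      obtain ⟨f, hf, hsf, h4⟩ := (h.pure_piece j).2.2 s hs
      exact ⟨f, mem_whole.2 ⟨j, hj, hf⟩, hsf, h4⟩
  · refine ⟨m, piece N M fac D, fun j _ => h.pure_piece j, ?_, ?_, fun s => mem_whole⟩
    · unfold piece
      rw [if_pos rfl]
      exact hpoly 0
    · intro j hj _
      refine ⟨?_, ⟨cplx M fac (rho D j), hpoly j, ?_⟩, h.meet j hj⟩
      · unfold piece
        rw [if_neg (by omega)]
        exact hball j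
      · unfold piece
        rw [if_neg (by omega)]
        refine ⟨?_, ?_⟩
        · intro s hs
          rw [mem_cplx] at hs ⊢
          obtain ⟨a, ha, hs⟩ := hs
          exact ⟨a, ha.trans h.nm, hs⟩
        · intro hsub
          have h1 : (fac N).image (rho D j) ∈ cplx M fac (rho D j) := by
            rw [mem_cplx]; exact ⟨N, h.nm, Finset.Subset.refl _⟩
          have h2 := hsub h1
          rw [mem_cplx] at h2
          obtain ⟨a, ha, hs⟩ := h2
          exact h.out a ha ((image_sub_iff (rho_inj j)).1 hs)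

lemma GlueData.notD (h : GlueData N M fac vt nb D) {a : ℕ} (ha : a < N) : ∃ u ∈ fac a, u ∉ D := by
  by_contra hcon
  push Not at hcon
  obtain ⟨c, hc, k, hk, hN, hsub⟩ := h.c7 a ha
  rw [Finset.inter_eq_left.2 (fun u hu => hcon u hu)] at hsub
  have h1 := Finset.card_le_card hsub
  rw [Finset.card_erase_of_mem (h.mem c hc k hk), h.crd a (ha.trans h.nm), h.crd c (hc.trans h.nm)] at h1
  omega

theorem GlueData.notShellable (h : GlueData N M fac vt nb D)
    {tr : ℕ → ℕ → Fin 3 → Fin 3} {v : ℕ} {sv : ℕ → Fin 3} (hcore : CoreData N fac vt nb tr v sv)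
    (hstar : ∀ pos : ℕ → ℕ, (∀ a < N, ∀ b < N, pos a = pos b → a = b) →
      (∀ a < N, ∀ t ⊆ fac a,
        ((∃ c < N, ∃ k < 4, N ≤ nb c k ∧ t ⊆ (fac c).erase (vt c k)) ∨
          (∃ b < N, pos b < pos a ∧ t ⊆ fac b)) →
        ∃ k < 4, t ⊆ (fac a).erase (vt a k) ∧ (N ≤ nb a k ∨ pos (nb a k) < pos a)) →
      ∀ a < N, v ∈ fac a → (∃ c < N, v ∈ fac c ∧ pos a < pos c) →
        ∃ k < 4, vt a k ≠ v ∧ pos a < pos (nb a k))
    {m : ℕ} (hm : 2 ^ D.card < m) : ¬ Shellable 4 (whole N M fac D m) := by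
  rintro ⟨F, hnd, hF, hsh⟩
  have hcN : ∀ a < N, (fac a).card = 4 := fun a ha => h.crd a (ha.trans h.nm)
  -- a good copy
  have hgood : ∃ i, 1 ≤ i ∧ i ≤ m ∧ ∀ a < N, ∀ t ⊆ D.image (fun v => (v, 0)),
      ∀ (j : ℕ) (hj : j < F.length), F[j] = (fac a).image (rho D i) → t ⊆ F[j] →
        ∃ (j' : ℕ) (hj' : j' < j), t ⊆ F[j'] := by
    by_contra hcon
    push Not at hcon
    have hcon' : ∀ i, ∃ t : Finset (ℕ × ℕ), 1 ≤ i → i ≤ m → t ⊆ D.image (fun v => (v, 0)) ∧
        ∃ a < N, ∃ (j : ℕ) (hj : j < F.length), F[j] = (fac a).image (rho D i) ∧ t ⊆ F[j] ∧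
          ∀ (j' : ℕ) (hj' : j' < j), ¬ t ⊆ F[j'] := by
      intro i
      by_cases hi : 1 ≤ i ∧ i ≤ m
      · obtain ⟨a, ha, t, ht, j, hj, h1, h2, h3⟩ := hcon i hi.1 hi.2
        exact ⟨t, fun _ _ => ⟨ht, a, ha, j, hj, h1, h2, h3⟩⟩
      · exact ⟨∅, fun h1 h2 => absurd ⟨h1, h2⟩ hi⟩
    choose T hT using hcon'
    have hcard : ((D.image (fun v => (v, 0)) : Finset (ℕ × ℕ)).powerset).card <
        (Finset.Icc 1 m).card := by
      rw [Finset.card_powerset, Nat.card_Icc]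
      have h1 : (D.image (fun v => (v, 0)) : Finset (ℕ × ℕ)).card ≤ D.card := Finset.card_image_le
      have h2 := Nat.pow_le_pow_right (show 0 < 2 by norm_num) h1
      omega
    obtain ⟨i, hi, i', hi', hne, heq⟩ := Finset.exists_ne_map_eq_of_card_lt_of_maps_to hcard
      (f := T) (by
        intro i hi
        rw [Finset.mem_coe, Finset.mem_Icc] at hi
        rw [Finset.mem_coe, Finset.mem_powerset]
        exact (hT i hi.1 hi.2).1)
    rw [Finset.mem_Icc] at hi hi'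
    obtain ⟨_, a, ha, j, hj, h1, h2, h3⟩ := hT i hi.1 hi.2
    obtain ⟨_, a', ha', j', hj', h1', h2', h3'⟩ := hT i' hi'.1 hi'.2
    rw [← heq] at h2' h3'
    have hjj : j = j' := by
      rcases Nat.lt_trichotomy j j' with h4 | h4 | h4
      · exact absurd h2 (h3' j h4)
      · exact h4
      · exact absurd h2' (h3 j' h4)
    subst hjj
    rw [h1] at h1'
    obtain ⟨u, hu, huD⟩ := h.notD ha
    exact huD (common hne h1'.le hu)
  obtain ⟨i, hi1, him, hg⟩ := hgood
  have hi0 : i ≠ 0 := by omega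
  have hpi : piece N M fac D i = cplx N fac (rho D i) := by
    unfold piece; rw [if_neg hi0]
  have hin : ∀ a < N, (fac a).image (rho D i) ∈ F := by
    intro a ha
    rw [hF, card_img, hcN a ha]
    refine ⟨mem_whole.2 ⟨i, him, ?_⟩, rfl⟩
    rw [hpi, mem_cplx]
    exact ⟨a, ha, Finset.Subset.refl _⟩
  have hlen : ∀ a < N, F.idxOf ((fac a).image (rho D i)) < F.length := fun a ha =>
    List.idxOf_lt_length_iff.2 (hin a ha)
  have hget : ∀ (a : ℕ) (ha : a < N), F[F.idxOf ((fac a).image (rho D i))]'(hlen a ha) =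
      (fac a).image (rho D i) := fun a ha => List.getElem_idxOf (hlen a ha)
  set pos : ℕ → ℕ := fun a => F.idxOf ((fac a).image (rho D i)) with hpos
  have hpinj : ∀ a < N, ∀ b < N, pos a = pos b → a = b := by
    intro a ha b hb hab
    have h1 := hget a ha
    have h2 := hget b hb
    have h3 : (fac a).image (rho D i) = (fac b).image (rho D i) := by
      rw [← h1, ← h2]
      congr 1
    exact h.finj a ha b hb ((image_sub_iff (rho_inj i)).1 h3.le)
  have hshell : ∀ a < N, ∀ t ⊆ fac a,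
        ((∃ c < N, ∃ k < 4, N ≤ nb c k ∧ t ⊆ (fac c).erase (vt c k)) ∨
          (∃ b < N, pos b < pos a ∧ t ⊆ fac b)) →
        ∃ k < 4, t ⊆ (fac a).erase (vt a k) ∧ (N ≤ nb a k ∨ pos (nb a k) < pos a) := by
    intro a ha t hta hcase
    have hta' : t.image (rho D i) ⊆ F[pos a]'(hlen a ha) := by
      rw [hget a ha]; exact Finset.image_subset_image hta
    have hear : ∃ (j : ℕ) (hj : j < pos a), t.image (rho D i) ⊆ F[j]'(hj.trans (hlen a ha)) := by
      rcases hcase with ⟨c, hc, k, hk, hN, htc⟩ | ⟨b, hb, hba, htb⟩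
      · refine hg a ha (t.image (rho D i)) ?_ (pos a) (hlen a ha) (hget a ha) hta'
        intro z hz
        rw [Finset.mem_image] at hz ⊢
        obtain ⟨u, hu, rfl⟩ := hz
        have h1 := h.bdD c hc k hk hN (htc hu)
        exact ⟨u, h1, (rho_mem h1).symm⟩
      · refine ⟨pos b, hba, ?_⟩
        rw [hget b hb]
        exact Finset.image_subset_image htb
    obtain ⟨j, hj, htj⟩ := hear
    obtain ⟨r, htr, hra, hr3, j', hj', hrj⟩ := hsh (pos a) (hlen a ha) (by omega) _ hta' ⟨j, hj, htj⟩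
    rw [hget a ha] at hra
    obtain ⟨k, hk, rfl⟩ := h.ridge ha i hra hr3
    refine ⟨k, hk, (image_sub_iff (rho_inj i)).1 htr, ?_⟩
    have hmemF : F[j']'(hj'.trans (hlen a ha)) ∈ F := List.getElem_mem _
    have hfac := (hF _).1 hmemF
    obtain ⟨i', hi', hp'⟩ := mem_whole.1 hfac.1
    obtain ⟨b, hbM, hsb, hbN⟩ := mem_piece h.nm hp'
    have hFb : F[j']'(hj'.trans (hlen a ha)) = (fac b).image (rho D i') := by
      refine Finset.eq_of_subset_of_card_le hsb ?_
      rw [card_img, h.crd b hbM, hfac.2]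
    rw [hFb] at hrj
    by_cases hii : i' = i
    · subst hii
      have hb := hbN hi0
      rcases h.one a ha k hk b hb ((image_sub_iff (rho_inj i')).1 hrj) with rfl | rfl
      · exfalso
        have h5 : pos b = j' := by
          have h6 := List.Nodup.idxOf_getElem hnd j' (hj'.trans (hlen b ha))
          rw [hFb] at h6
          exact h6
        omega
      · right
        have h6 := List.Nodup.idxOf_getElem hnd j' (hj'.trans (hlen a ha))
        rw [hFb] at h6
        have h7 : pos (nb a k) = j' := h6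
        omega
    · left
      exact h.d3 a ha k hk (common (fun e => hii e.symm) hrj)
  exact hcore.false ⟨hpinj, hshell, hstar pos hpinj hshell⟩

end

end Pool.Agent.V11126.Ear
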