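import Pool.Agent.V11126.Ear.Defs

/-!
A criterion for a list of `d`-sets to be the facets of the boundary complex of a simplicial polytope
with the origin in its interior.
-/

namespace Pool.Agent.V11126.Ear

open Finset

section
variable {V ι : Type} [DecidableEq V] [Fintype ι] [Nonempty ι] {d : ℕ}
  (W : Finset V) (p : V → (Fin d → ℝ)) (F : ι → Finset V) (α : ι → ((Fin d → ℝ) →ₗ[ℝ] ℝ))

structure PolyData : Prop where
  dpos : 0 < d
  sub : ∀ i, F i ⊆ W
  crd : ∀ i, (F i).card = d
  on : ∀ i, ∀ v ∈ F i, α i (p v) = 1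
  off : ∀ i, ∀ v ∈ W, v ∉ F i → α i (p v) < 1
  nbr : ∀ i, ∀ u ∈ F i, ∃ j, (F i).erase u ⊆ F j ∧ u ∉ F j
  cov : ∀ v ∈ W, ∃ i, v ∈ F i

variable {W p F α}

omit [Fintype ι] [Nonempty ι] in
lemma PolyData.coef (h : PolyData W p F α) (i j : ι) (u : V) (hu : u ∈ F i)
    (hj : (F i).erase u ⊆ F j) (c : V → ℝ) :
    α i (∑ v ∈ F i, c v • p v) - α j (∑ v ∈ F i, c v • p v) = c u * (1 - α j (p u)) := by
  rw [map_sum, map_sum, ← Finset.sum_sub_distrib, ← Finset.add_sum_erase _ _ hu]
  have h0 : ∑ x ∈ (F i).erase u, ((α i) (c x • p x) - (α j) (c x • p x)) = 0 := by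
    apply Finset.sum_eq_zero
    intro x hx
    rw [map_smul, map_smul, h.on i x (Finset.mem_of_mem_erase hx), h.on j x (hj hx)]
    simp
  rw [h0, map_smul, map_smul, h.on i u hu]
  simp only [smul_eq_mul]
  ring

omit [Fintype ι] [Nonempty ι] in
lemma PolyData.linInd (h : PolyData W p F α) (i : ι) :
    LinearIndependent ℝ (fun v : F i => p v) := by
  rw [linearIndependent_iff']
  have key : ∀ c : V → ℝ, ∑ v ∈ F i, c v • p v = 0 → ∀ u ∈ F i, c u = 0 := by
    intro c hc u hu
    obtain ⟨j, hj, huj⟩ := h.nbr i u hu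
    have h1 := h.coef i j u hu hj c
    rw [hc, map_zero, map_zero, sub_zero] at h1
    have h2 := h.off j u (h.sub i hu) huj
    rcases mul_eq_zero.1 h1.symm with h3 | h3
    · exact h3
    · linarith
  intro s g hs u hu
  have h4 := key (fun v => if hv : v ∈ F i then (if (⟨v, hv⟩ : F i) ∈ s then g ⟨v, hv⟩ else 0) else 0)
    (by
      rw [← Finset.sum_coe_sort]
      rw [← hs]
      rw [← Finset.sum_subset (Finset.subset_univ s)]
      · apply Finset.sum_congr rfl
        intro x hx
        simp [hx]
      · intro x _ hx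
        simp [hx]) u u.2
  simpa [hu] using h4

omit [Fintype ι] [Nonempty ι] in
lemma PolyData.span (h : PolyData W p F α) (i : ι) (x : Fin d → ℝ) :
    ∃ c : V → ℝ, x = ∑ v ∈ F i, c v • p v := by
  have hli := h.linInd i
  have hsp : Submodule.span ℝ (Set.range (fun v : F i => p v)) = ⊤ := by
    apply hli.span_eq_top_of_card_eq_finrank'
    rw [Fintype.card_coe, h.crd i, Module.finrank_fin_fun]
  have hx : x ∈ Submodule.span ℝ (Set.range (fun v : F i => p v)) := by
    rw [hsp]; trivial
  rw [Submodule.mem_span_range_iff_exists_fun] at hx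
  obtain ⟨c, hc⟩ := hx
  refine ⟨fun v => if hv : v ∈ F i then c ⟨v, hv⟩ else 0, ?_⟩
  rw [← Finset.sum_coe_sort, ← hc]
  apply Finset.sum_congr rfl
  intro v _
  simp

/-- every vector is in one of the cones over the facets -/
lemma PolyData.cone (h : PolyData W p F α) (x : Fin d → ℝ) :
    ∃ i, ∃ c : V → ℝ, (∀ v ∈ F i, 0 ≤ c v) ∧ x = ∑ v ∈ F i, c v • p v := by
  obtain ⟨i, hi⟩ := Finite.exists_max (fun i => α i x)
  obtain ⟨c, hc⟩ := h.span i x
  refine ⟨i, c, ?_, hc⟩
  intro u hu
  obtain ⟨j, hj, huj⟩ := h.nbr i u hu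
  have h1 := h.coef i j u hu hj c
  rw [← hc] at h1
  have h2 := h.off j u (h.sub i hu) huj
  have h3 := hi j
  by_contra hneg
  push Not at hneg
  nlinarith

omit [Fintype ι] [Nonempty ι] in
lemma PolyData.le_one (h : PolyData W p F α) (i : ι) (v : V) (hv : v ∈ W) : α i (p v) ≤ 1 := by
  by_cases hvi : v ∈ F i
  · exact (h.on i v hvi).le
  · exact (h.off i v hv hvi).le

theorem PolyData.isPolytopeBoundary (h : PolyData W p F α) (K : Finset (Finset V))
    (hK : ∀ s, s ∈ K ↔ ∃ i, s ⊆ F i) : IsPolytopeBoundary d K := by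
  have hne : ∀ i, (F i).Nonempty := fun i => by
    rw [← Finset.card_pos, h.crd i]; exact h.dpos
  refine ⟨W, p, ?_, ?_, ?_, ?_⟩
  · intro l c hl
    obtain ⟨i0⟩ := ‹Nonempty ι›
    obtain ⟨v, hv⟩ := hne i0
    obtain ⟨j, a, ha, hx⟩ := h.cone (-(p v))
    have h1 : l (-(p v)) = l (∑ v ∈ F j, a v • p v) := by rw [hx]
    rw [map_neg, map_sum, hl v (h.sub i0 hv)] at h1
    have h2 : ∑ x ∈ F j, l (a x • p x) = (∑ x ∈ F j, a x) * c := by
      rw [Finset.sum_mul]
      apply Finset.sum_congr rfl
      intro x hx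
      rw [map_smul, hl x (h.sub j hx), smul_eq_mul]
    rw [h2] at h1
    have h3 : 0 ≤ ∑ x ∈ F j, a x := Finset.sum_nonneg ha
    have hc : c = 0 := by
      have h4 : (1 + ∑ x ∈ F j, a x) * c = 0 := by linarith
      rcases mul_eq_zero.1 h4 with h5 | h5
      · linarith
      · exact h5
    refine LinearMap.ext fun x => ?_
    obtain ⟨b, hb⟩ := h.span i0 x
    rw [hb, map_sum]
    simp only [LinearMap.zero_apply]
    apply Finset.sum_eq_zero
    intro u hu
    rw [map_smul, hl u (h.sub i0 hu), hc, smul_zero]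
  · intro v hv
    rw [hK]
    obtain ⟨i, hi⟩ := h.cov v hv
    exact ⟨i, by simpa using hi⟩
  · intro s hs
    rw [hK] at hs
    obtain ⟨i, hi⟩ := hs
    have h1 := (h.linInd i).affineIndependent
    have h2 := h1.comp_embedding (⟨fun v : s => (⟨v.1, hi v.2⟩ : F i), by
      intro a b hab
      have := congrArg (fun z : F i => z.1) hab
      exact Subtype.ext this⟩ : s ↪ F i)
    exact h2
  · intro s
    rw [hK]
    constructor
    · rintro ⟨i, hi⟩
      refine ⟨?_, ?_⟩
      · refine ⟨hi.trans (h.sub i), ?_⟩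
        intro hWs
        obtain ⟨u, hu⟩ := hne i
        obtain ⟨j, hj, huj⟩ := h.nbr i u hu
        have h1 : F j ⊆ (F i).erase u := by
          intro z hz
          rw [Finset.mem_erase]
          exact ⟨fun hzu => huj (hzu ▸ hz), hi (hWs (h.sub j hz))⟩
        have h2 := Finset.card_le_card h1
        rw [Finset.card_erase_of_mem hu, h.crd i, h.crd j] at h2
        have := h.dpos
        omega
      · choose ψ hψ using h.nbr i
        refine ⟨α i + ∑ u ∈ (F i).attach.filter (fun u => u.1 ∉ s), α (ψ u.1 u.2),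
          1 + ((F i).attach.filter (fun u => u.1 ∉ s)).card, ?_, ?_⟩
        · intro v hv
          rw [LinearMap.add_apply, LinearMap.sum_apply, h.on i v (hi hv)]
          congr 1
          rw [Finset.sum_congr rfl (g := fun _ => (1 : ℝ))]
          · simp
          · intro u hu
            apply h.on
            apply (hψ u.1 u.2).1
            rw [Finset.mem_erase]
            refine ⟨?_, hi hv⟩
            rintro rfl
            rw [Finset.mem_filter] at hu
            exact hu.2 hv
        · intro v hv hvs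
          rw [LinearMap.add_apply, LinearMap.sum_apply]
          have hcard : (((F i).attach.filter (fun u => u.1 ∉ s)).card : ℝ) =
              ∑ _u ∈ (F i).attach.filter (fun u => u.1 ∉ s), (1 : ℝ) := by simp
          rw [hcard]
          have hall : ∑ d_1 ∈ (F i).attach.filter (fun u => u.1 ∉ s), (α (ψ d_1.1 d_1.2)) (p v) ≤
              ∑ _u ∈ (F i).attach.filter (fun u => u.1 ∉ s), (1 : ℝ) := by
            apply Finset.sum_le_sum
            intro u _
            exact h.le_one _ v hv
          by_cases hvi : v ∈ F i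
          · have hlt : ∑ d_1 ∈ (F i).attach.filter (fun u => u.1 ∉ s), (α (ψ d_1.1 d_1.2)) (p v) <
              ∑ _u ∈ (F i).attach.filter (fun u => u.1 ∉ s), (1 : ℝ) := by
              apply Finset.sum_lt_sum
              · intro u _
                exact h.le_one _ v hv
              · refine ⟨⟨v, hvi⟩, ?_, ?_⟩
                · simp [hvs]
                · exact h.off _ v hv (hψ v hvi).2
            have := h.le_one i v hv
            linarith
          · have := h.off i v hv hvi
            linarith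
    · rintro ⟨hsW, l, c, hon, hoff⟩
      by_cases hs0 : s = ∅
      · obtain ⟨i0⟩ := ‹Nonempty ι›
        exact ⟨i0, by simp [hs0]⟩
      have hle : ∀ v ∈ W, l (p v) ≤ c := by
        intro v hv
        by_cases hvs : v ∈ s
        · exact (hon v hvs).le
        · exact (hoff v hv hvs).le
      have hsum : ∀ (i : ι) (a : V → ℝ), (∀ v ∈ F i, 0 ≤ a v) →
          l (∑ v ∈ F i, a v • p v) ≤ (∑ v ∈ F i, a v) * c := by
        intro i a ha
        rw [map_sum, Finset.sum_mul]
        apply Finset.sum_le_sum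
        intro x hx
        rw [map_smul, smul_eq_mul]
        exact mul_le_mul_of_nonneg_left (hle x (h.sub i hx)) (ha x hx)
      have hcpos : 0 < c := by
        obtain ⟨hsub, hnsub⟩ := hsW
        obtain ⟨v, hvW, hvs⟩ := Finset.not_subset.1 hnsub
        obtain ⟨i, a, ha, hx⟩ := h.cone (-(p v))
        have h1 := hsum i a ha
        rw [← hx, map_neg] at h1
        have h2 := hoff v hvW hvs
        have h3 : 0 ≤ ∑ x ∈ F i, a x := Finset.sum_nonneg ha
        by_contra hneg
        push Not at hneg
        nlinarith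
      obtain ⟨i, a, ha, hx⟩ := h.cone (∑ v ∈ s, p v)
      refine ⟨i, ?_⟩
      have h1 := hsum i a ha
      rw [← hx, map_sum, Finset.sum_congr rfl hon] at h1
      simp only [Finset.sum_const, nsmul_eq_mul] at h1
      have h2 : (s.card : ℝ) ≤ ∑ v ∈ F i, a v := le_of_mul_le_mul_right h1 hcpos
      have h3 : α i (∑ v ∈ s, p v) = ∑ v ∈ F i, a v := by
        rw [hx, map_sum]
        apply Finset.sum_congr rfl
        intro x hx
        rw [map_smul, h.on i x hx, smul_eq_mul, mul_one]
      rw [map_sum] at h3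
      intro u hu
      by_contra hui
      have h4 : ∑ x ∈ s, α i (p x) < ∑ _x ∈ s, (1 : ℝ) := by
        apply Finset.sum_lt_sum
        · intro x hx
          exact h.le_one i x (hsW.1 hx)
        · exact ⟨u, hu, h.off i u (hsW.1 hu) hui⟩
      simp only [Finset.sum_const, nsmul_eq_mul, mul_one] at h4
      linarith

end

end Pool.Agent.V11126.Ear
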