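import Pool.Agent.V11126.Ear.Check2
import Pool.Agent.V11126.Ear.Check3
import Pool.Agent.V11126.Ear.Poly

/-!
The data satisfy the hypotheses of the abstract statements.
-/

namespace Pool.Agent.V11126.Ear

open Finset

/-! ### masks and sets -/

lemma mem_toF' {m v : ℕ} : v ∈ toF m ↔ v < 128 ∧ m.testBit v = true := by
  unfold toF
  rw [Finset.mem_filter, Finset.mem_range]

lemma toF_sub {m g : ℕ} (h : has m g = true) : toF g ⊆ toF m := by
  intro v hv
  rw [mem_toF'] at hv ⊢
  exact ⟨hv.1, (has_iff m g).1 h v hv.2⟩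

lemma has_of_sub {m g : ℕ} (hg : g < 2 ^ 128) (h : toF g ⊆ toF m) : has m g = true := by
  rw [has_iff]
  intro v hv
  exact (mem_toF'.1 (h ((mem_toF hg).2 hv))).2

lemma has_pow {m v : ℕ} : has m (Nat.pow 2 v) = m.testBit v := has_two_pow m v

lemma toF_erase {m u : ℕ} (h : m.testBit u = true) : (toF m).erase u = toF (m ^^^ 2 ^ u) := by
  ext v
  rw [Finset.mem_erase, mem_toF', mem_toF', Nat.testBit_xor, Nat.testBit_two_pow]
  by_cases huv : u = v
  · subst huv
    rw [h]
    simp
  · rw [decide_eq_false huv, Bool.xor_false]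
    constructor
    · exact fun h => h.2
    · exact fun h => ⟨fun e => huv e.symm, h⟩

lemma toF_inter (m g : ℕ) : toF m ∩ toF g = toF (m &&& g) := by
  ext v
  rw [Finset.mem_inter, mem_toF', mem_toF', mem_toF', Nat.testBit_and, Bool.and_eq_true]
  tauto

lemma fm_lt (a : ℕ) : fm a < 2 ^ 128 := by
  unfold fm dig
  have h1 : Nat.sub (Nat.pow 2 80) 1 < 2 ^ 128 := by decide
  exact Nat.and_lt_two_pow _ h1

/-- the facets -/
def fac (a : ℕ) : Finset ℕ := toF (fm a)

/-- the labelling of the ridges -/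
def tr (a k : ℕ) (t : Fin 3) : Fin 3 := Fin.ofNat 3 (trn a k t.val)

/-- the local section -/
def sv (a : ℕ) : Fin 3 := Fin.ofNat 3 (svn a)

lemma vtx {a : ℕ} (ha : a < 394) : vt a 0 < vt a 1 ∧ vt a 1 < vt a 2 ∧ vt a 2 < vt a 3 ∧
    vt a 3 < 77 ∧ fm a = 2 ^ vt a 0 ||| (2 ^ vt a 1 ||| (2 ^ vt a 2 ||| 2 ^ vt a 3)) := by
  have h := ckV_ok
  unfold ckV at h
  rw [allB_iff] at h
  have h1 := h a ha
  simp only [and_iff', blt_iff, nbeq_iff] at h1
  exact h1

lemma fm_testBit {a : ℕ} (ha : a < 394) (v : ℕ) : (fm a).testBit v = true ↔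
    v = vt a 0 ∨ v = vt a 1 ∨ v = vt a 2 ∨ v = vt a 3 := by
  rw [(vtx ha).2.2.2.2]
  simp only [Nat.testBit_or, Nat.testBit_two_pow, Bool.or_eq_true, decide_eq_true_iff]
  constructor
  · rintro (h | h | h | h) <;> simp [h]
  · rintro (h | h | h | h) <;> simp [h]

lemma fac_eq {a : ℕ} (ha : a < 394) : fac a = {vt a 0, vt a 1, vt a 2, vt a 3} := by
  ext v
  unfold fac
  rw [mem_toF (fm_lt a), fm_testBit ha]
  simp

lemma fac_card {a : ℕ} (ha : a < 394) : (fac a).card = 4 := by
  obtain ⟨h0, h1, h2, _⟩ := vtx ha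
  rw [fac_eq ha]
  rw [Finset.card_insert_of_notMem, Finset.card_insert_of_notMem, Finset.card_insert_of_notMem,
    Finset.card_singleton]
  · simp; omega
  · simp; omega
  · simp; omega

lemma vt_mem {a k : ℕ} (ha : a < 394) (hk : k < 4) : vt a k ∈ fac a := by
  rw [fac_eq ha]
  interval_cases k <;> simp

lemma vt_surj {a u : ℕ} (ha : a < 394) (hu : u ∈ fac a) : ∃ k < 4, vt a k = u := by
  rw [fac_eq ha] at hu
  simp only [Finset.mem_insert, Finset.mem_singleton] at hu
  rcases hu with h | h | h | h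
  · exact ⟨0, by norm_num, h.symm⟩
  · exact ⟨1, by norm_num, h.symm⟩
  · exact ⟨2, by norm_num, h.symm⟩
  · exact ⟨3, by norm_num, h.symm⟩

lemma vt_inj {a k l : ℕ} (ha : a < 394) (hk : k < 4) (hl : l < 4) (h : vt a k = vt a l) : k = l := by
  obtain ⟨h0, h1, h2, _⟩ := vtx ha
  interval_cases k <;> interval_cases l <;> first | rfl | omega

lemma vt_lt {a k : ℕ} (ha : a < 394) (hk : k < 4) : vt a k < 77 := by
  obtain ⟨h0, h1, h2, h3, _⟩ := vtx ha
  interval_cases k <;> omega

lemma mem_fac {a v : ℕ} : v ∈ fac a ↔ (fm a).testBit v = true := mem_toF (fm_lt a)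

lemma rg_eq {a k : ℕ} (ha : a < 394) (hk : k < 4) : (fac a).erase (vt a k) = toF (rg a k) :=
  toF_erase (mem_fac.1 (vt_mem ha hk))

lemma rg_lt {a k : ℕ} (ha : a < 394) (hk : k < 4) : rg a k < 2 ^ 128 := by
  unfold rg
  refine Nat.xor_lt_two_pow (fm_lt a) ?_
  exact Nat.pow_lt_pow_right (by norm_num) (lt_trans (vt_lt ha hk) (by norm_num))

lemma em_eq {a k l : ℕ} (ha : a < 394) (hk : k < 4) (hl : l < 4) (hkl : k ≠ l) :
    ((fac a).erase (vt a k)).erase (vt a l) = toF (em a k l) := by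
  rw [rg_eq ha hk]
  apply toF_erase
  have h1 : vt a l ∈ toF (rg a k) := by
    rw [← rg_eq ha hk, Finset.mem_erase]
    exact ⟨fun e => hkl (vt_inj ha hk hl e.symm), vt_mem ha hl⟩
  exact (mem_toF'.1 h1).2

lemma one {a k b : ℕ} (ha : a < 338) (hk : k < 4) (hb : b < 338)
    (h : (fac a).erase (vt a k) ⊆ fac b) : b = a ∨ b = nb a k := by
  have h0 := ckO_ok
  unfold ckO at h0
  simp only [allB_iff, imp_iff, or_iff', nbeq_iff] at h0
  rw [rg_eq (by omega) hk] at h
  exact h0 a ha k hk b hb (has_of_sub (rg_lt (by omega) hk) h)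

lemma nbs {a k : ℕ} (ha : a < 394) (hk : k < 4) : nb a k < 394 ∧
    (fac a).erase (vt a k) ⊆ fac (nb a k) ∧ vt a k ∉ fac (nb a k) := by
  have h0 := ckN_ok
  unfold ckN at h0
  simp only [allB_iff, and_iff', not_iff', blt_iff] at h0
  obtain ⟨h1, h2, h3⟩ := h0 a ha k hk
  refine ⟨h1, ?_, ?_⟩
  · rw [rg_eq ha hk]
    exact toF_sub h2
  · rw [has_pow] at h3
    rw [mem_fac, h3]
    simp

lemma nb_ne {a k : ℕ} (ha : a < 394) (hk : k < 4) : nb a k ≠ a := by
  intro h
  have h1 := (nbs ha hk).2.2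
  rw [h] at h1
  exact h1 (vt_mem ha hk)

lemma tr_val {a k : ℕ} (ha : a < 338) (hk : k < 4) (t : Fin 3) : (tr a k t).val = trn a k t.val := by
  have h0 := ckT_ok
  unfold ckT at h0
  simp only [allB_iff, blt_iff] at h0
  have := h0 a ha k hk t.val t.2
  unfold tr
  rw [Fin.val_ofNat, Nat.mod_eq_of_lt this]

lemma sv_val {a : ℕ} (ha : a < 338) : (sv a).val = svn a := by
  have h0 := ckSv_ok
  unfold ckSv at h0
  simp only [allB_iff, blt_iff] at h0
  have := h0 a ha
  unfold sv
  rw [Fin.val_ofNat, Nat.mod_eq_of_lt this]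

lemma inv {a k : ℕ} (ha : a < 338) (hk : k < 4) (hn : nb a k < 338) :
    ∃ l < 4, nb (nb a k) l = a ∧ ∀ t, tr (nb a k) l (tr a k t) = t := by
  have h0 := ckI_ok
  unfold ckI at h0
  simp only [allB_iff, imp_iff, anyB_iff, and_iff', nbeq_iff, blt_iff] at h0
  obtain ⟨l, hl, h1, h2⟩ := h0 a ha k hk hn
  refine ⟨l, hl, h1, ?_⟩
  intro t
  apply Fin.ext
  rw [tr_val hn hl, tr_val ha hk]
  exact h2 t.val t.2

lemma Conn.sub {N : ℕ} {fac : ℕ → Finset ℕ} {nb : ℕ → ℕ → ℕ} {tr : ℕ → ℕ → Fin 3 → Fin 3}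
    {e : Finset ℕ} {a b c : ℕ} {T : Fin 3 → Fin 3} (h : Conn N fac nb tr e a b c T) : e ⊆ fac c := by
  induction h with
  | refl _ h _ => exact h
  | step c k T _ _ _ h _ _ => exact h

lemma walk_sound {a l b : ℕ} {e : Finset ℕ} {E : ℕ} (he : e = toF E) (ha : a < 338) (hl : l < 4)
    (U : Fin 3 → Fin 3) : ∀ (fuel p c : ℕ) (T : Fin 3 → Fin 3), Conn 338 fac nb tr e a b c T →
    walk E a l fuel p c (T (U 0)).val (T (U 1)).val (T (U 2)).val = true →
    (∃ c < 338, ∃ j < 4, 338 ≤ nb c j ∧ e ⊆ (fac c).erase (vt c j)) ∨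
    ∃ T, Conn 338 fac nb tr e a b (nb a l) T ∧ ∀ t, T (U t) = tr a l t := by
  intro fuel
  induction fuel with
  | zero => intro p c T _ h; exact absurd h (by simp [walk])
  | succ fuel ih =>
    intro p c T hT h
    have h1 : walk E a l (fuel + 1) p c (T (U 0)).val (T (U 1)).val (T (U 2)).val =
      cond (Nat.beq c (nb a l))
      (cond (Nat.beq (T (U 0)).val (trn a l 0)) (cond (Nat.beq (T (U 1)).val (trn a l 1))
        (Nat.beq (T (U 2)).val (trn a l 2)) false) false)
      (anyB 4 fun k => cond (has E (Nat.pow 2 (vt c k))) false (cond (Nat.beq (nb c k) p) false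
        (cond (Nat.ble 338 (nb c k)) true (cond (Nat.beq (nb c k) a) false
          (walk E a l fuel c (nb c k) (trn c k (T (U 0)).val) (trn c k (T (U 1)).val)
            (trn c k (T (U 2)).val)))))) := rfl
    rw [h1] at h
    cases hc : Nat.beq c (nb a l)
    · rw [hc, cond_false, anyB_iff] at h
      obtain ⟨k, hk, h2⟩ := h
      cases h3 : has E (Nat.pow 2 (vt c k))
      swap
      · rw [h3] at h2; simp at h2
      rw [h3, cond_false] at h2
      cases h4 : Nat.beq (nb c k) p
      swap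
      · rw [h4] at h2; simp at h2
      rw [h4, cond_false] at h2
      have hclt := hT.lt
      have hsub : e ⊆ (fac c).erase (vt c k) := by
        intro z hz
        rw [Finset.mem_erase]
        refine ⟨?_, hT.sub hz⟩
        rintro rfl
        rw [he, mem_toF', ← has_pow, h3] at hz
        simp at hz
      cases h5 : Nat.ble 338 (nb c k)
      swap
      · left
        exact ⟨c, hclt, k, hk, ble_iff.1 h5, hsub⟩
      rw [h5, cond_false] at h2
      cases h6 : Nat.beq (nb c k) a
      swap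
      · rw [h6] at h2; simp at h2
      rw [h6, cond_false] at h2
      have hnlt : nb c k < 338 := by
        by_contra hcon
        push Not at hcon
        rw [ble_iff.2 hcon] at h5
        simp at h5
      have hna : nb c k ≠ a := by
        intro e
        rw [nbeq_iff.2 e] at h6
        simp at h6
      refine ih c (nb c k) (tr c k ∘ T) (Conn.step c k T hT hk hnlt
        (hsub.trans (nbs (by omega) hk).2.1) hna) ?_
      show walk E a l fuel c (nb c k) (tr c k (T (U 0))).val (tr c k (T (U 1))).val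
        (tr c k (T (U 2))).val = true
      rw [tr_val hclt hk, tr_val hclt hk, tr_val hclt hk]
      exact h2
    · rw [hc, cond_true] at h
      simp only [and_iff', nbeq_iff] at h
      right
      rw [nbeq_iff] at hc
      subst hc
      refine ⟨T, hT, ?_⟩
      intro t
      apply Fin.ext
      rw [tr_val ha hl]
      fin_cases t
      · exact h.1
      · exact h.2.1
      · exact h.2.2

lemma flat {a k l : ℕ} (ha : a < 338) (hk : k < 4) (hl : l < 4) (hkl : k ≠ l) (hk1 : nb a k < 338)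
    (hl1 : nb a l < 338) (hv : 76 ∉ ((fac a).erase (vt a k)).erase (vt a l)) :
    (∃ c < 338, ∃ j < 4, 338 ≤ nb c j ∧ ((fac a).erase (vt a k)).erase (vt a l) ⊆
      (fac c).erase (vt c j)) ∨
    ∃ T, Conn 338 fac nb tr (((fac a).erase (vt a k)).erase (vt a l)) a (nb a k) (nb a l) T ∧
      ∀ t, T (tr a k t) = tr a l t := by
  have h0 := ckFl_ok
  unfold ckFl at h0
  simp only [allB_iff, imp_iff, blt_iff] at h0
  have h1 := h0 a ha k hk hk1 l hl (by
    rw [not_iff']
    cases hb : Nat.beq k l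
    · rfl
    · exact absurd (nbeq_iff.1 hb) hkl) hl1
  have ha' : a < 394 := by omega
  have hem := em_eq ha' hk hl hkl
  rw [hem] at hv ⊢
  cases h2 : has (em a k l) (Nat.pow 2 76)
  swap
  · exfalso
    apply hv
    rw [mem_toF', ← has_pow]
    exact ⟨by norm_num, h2⟩
  rw [h2, cond_false] at h1
  refine walk_sound rfl ha hl (tr a k) 40 a (nb a k) id (Conn.refl hk1 ?_ (nb_ne ha' hk)) ?_
  · rw [← hem]
    exact (Finset.erase_subset _ _).trans (nbs ha' hk).2.1
  · show walk (em a k l) a l 40 a (nb a k) (tr a k 0).val (tr a k 1).val (tr a k 2).val = true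
    rw [tr_val ha hk, tr_val ha hk, tr_val ha hk]
    exact h1

lemma starSec {a : ℕ} (ha : a < 338) (hv : 76 ∈ fac a) (k : ℕ) (hk : k < 4) (hkv : vt a k ≠ 76) :
    nb a k < 338 ∧ tr a k (sv a) = sv (nb a k) := by
  have h0 := ckStar_ok
  unfold ckStar at h0
  simp only [allB_iff, imp_iff, and_iff', nbeq_iff, blt_iff, has_pow] at h0
  obtain ⟨h1, h2⟩ := h0 a ha (mem_fac.1 hv) k hk (by
    rw [not_iff']
    cases hb : Nat.beq (vt a k) 76
    · rfl
    · exact absurd (nbeq_iff.1 hb) hkv)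
  refine ⟨h1, ?_⟩
  apply Fin.ext
  rw [tr_val ha hk, sv_val ha, sv_val h1, h2]

lemma pth_sound : ∀ (ks : List ℕ) (c : ℕ) (T : Fin 3 → Fin 3), Conn 338 fac nb tr ∅ 338 142 c T →
    pth ks c (T (sv 142)).val = true → ∃ b, 76 ∈ fac b ∧ ∃ T, Conn 338 fac nb tr ∅ 338 142 b T ∧
      T (sv 142) ≠ sv b := by
  intro ks
  induction ks with
  | nil =>
    intro c T hT h
    have h1 : pth [] c (T (sv 142)).val = cond (has (fm c) (Nat.pow 2 76))
      (cond (Nat.beq (T (sv 142)).val (svn c)) false true) false := rfl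
    rw [h1] at h
    simp only [and_iff', not_iff', has_pow] at h
    refine ⟨c, mem_fac.2 h.1, T, hT, ?_⟩
    intro e
    have h2 := congrArg Fin.val e
    rw [sv_val hT.lt] at h2
    rw [nbeq_iff.2 h2] at h
    simp at h
  | cons k ks ih =>
    intro c T hT h
    have h1 : pth (k :: ks) c (T (sv 142)).val = cond (Nat.ble (Nat.succ k) 4)
      (cond (Nat.ble (Nat.succ (nb c k)) 338) (pth ks (nb c k) (trn c k (T (sv 142)).val)) false)
        false := rfl
    rw [h1] at h
    simp only [and_iff', blt_iff] at h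
    obtain ⟨hk, hn, h2⟩ := h
    refine ih (nb c k) (tr c k ∘ T) (Conn.step c k T hT hk hn (Finset.empty_subset _) (by omega)) ?_
    show pth ks (nb c k) (tr c k (T (sv 142))).val = true
    rw [tr_val hT.lt hk]
    exact h2

theorem coreData : CoreData 338 fac vt nb tr 76 sv where
  mem := fun a ha k hk => vt_mem (by omega) hk
  surj := fun a ha u hu => vt_surj (by omega) hu
  inj := fun a ha k hk l hl h => vt_inj (by omega) hk hl h
  one := fun a ha k hk b hb h => one ha hk hb h
  nbs := fun a ha k hk hn => ⟨nb_ne (by omega) hk, (nbs (by omega) hk).2.1, inv ha hk hn⟩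
  flat := fun a ha k hk l hl hkl hk1 hl1 hv => flat ha hk hl hkl hk1 hl1 hv
  star := fun a ha hv k hk hkv => starSec ha hv k hk hkv
  path := by
    have h0 := ckPa_ok
    unfold ckPa at h0
    simp only [and_iff', has_pow] at h0
    obtain ⟨h1, h2⟩ := h0
    obtain ⟨b, hb, T, hT, hne⟩ := pth_sound pathL 142 id
      (Conn.refl (by norm_num) (Finset.empty_subset _) (by norm_num)) (by
        show pth pathL 142 (sv 142).val = true
        rw [sv_val (by norm_num)]
        exact h2)
    exact ⟨142, by norm_num, b, mem_fac.2 h1, hb, T, hT, hne⟩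

theorem glueData : GlueData 338 394 fac vt nb (toF Dm) where
  npos := by norm_num
  nm := by norm_num
  crd := fun a ha => fac_card ha
  out := by
    intro a ha hsub
    have h0 := ckOut_ok
    unfold ckOut at h0
    simp only [allB_iff, not_iff'] at h0
    have h1 := has_of_sub (fm_lt 338) hsub
    rw [h0 a ha] at h1
    simp at h1
  finj := by
    intro a ha b hb hsub
    have h0 := ckF_ok
    unfold ckF at h0
    simp only [allB_iff, imp_iff, nbeq_iff] at h0
    exact h0 a ha b hb (has_of_sub (fm_lt a) hsub)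
  mem := fun a ha k hk => vt_mem (by omega) hk
  surj := fun a ha u hu => vt_surj (by omega) hu
  inj := fun a ha k hk l hl h => vt_inj (by omega) hk hl h
  one := fun a ha k hk b hb h => one ha hk hb h
  nbs := fun a ha k hk _ => ⟨nb_ne (by omega) hk, (nbs (by omega) hk).2.1⟩
  bdD := by
    intro a ha k hk hn
    have h0 := ckBD_ok
    unfold ckBD at h0
    simp only [allB_iff, imp_iff, ble_iff] at h0
    rw [rg_eq (by omega) hk]
    exact toF_sub (h0 a ha k hk hn)
  c7 := by
    intro a ha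
    have h0 := ckC7_ok
    unfold ckC7 at h0
    simp only [allB_iff, anyL_iff] at h0
    obtain ⟨z, hz, h1⟩ := h0 a ha
    have h2 := ckBr_ok
    unfold ckBr at h2
    simp only [allL_iff, and_iff', blt_iff, ble_iff] at h2
    obtain ⟨h3, h4⟩ := h2 z hz
    have h5 : Nat.mod z 4 < 4 := Nat.mod_lt _ (by norm_num)
    refine ⟨Nat.div z 4, h3, Nat.mod z 4, h5, h4, ?_⟩
    rw [rg_eq (by omega) h5]
    show toF (fm a) ∩ toF Dm ⊆ _
    rw [toF_inter]
    exact toF_sub h1
  d3 := by
    intro a ha k hk hsub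
    have h0 := ckD3_ok
    unfold ckD3 at h0
    simp only [allB_iff, imp_iff, ble_iff] at h0
    rw [rg_eq (by omega) hk] at hsub
    exact h0 a ha k hk (has_of_sub (rg_lt (by omega) hk) hsub)

end Pool.Agent.V11126.Ear
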