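import Pool.Agent.V11126.Ear.Inst

/-!
The star of the vertex 76, and the polytope.
-/

namespace Pool.Agent.V11126.Ear

open Finset

lemma r0 : RT.testBit 0 = true ∧ (∀ l < 8, st l < 338 ∧ 76 ∈ fac (st l)) ∧
    (∀ l < 8, ∀ l' < 8, st l = st l' → l = l') ∧ (∀ a < 338, 76 ∈ fac a → ∃ l < 8, st l = a) := by
  have h0 := ckR0_ok
  unfold ckR0 at h0
  simp only [allB_iff, anyB_iff, imp_iff, and_iff', nbeq_iff, blt_iff, has_pow] at h0
  obtain ⟨h1, h2, h3, h4⟩ := h0
  refine ⟨h1, fun l hl => ⟨(h2 l hl).1, mem_fac.2 (h2 l hl).2⟩, h3, fun a ha hv => h4 a ha (mem_fac.1 hv)⟩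

lemma okA_of {pos : ℕ → ℕ}
    (hsh : ∀ a < 338, ∀ t ⊆ fac a,
      ((∃ c < 338, ∃ k < 4, 338 ≤ nb c k ∧ t ⊆ (fac c).erase (vt c k)) ∨
        (∃ b < 338, pos b < pos a ∧ t ⊆ fac b)) →
      ∃ k < 4, t ⊆ (fac a).erase (vt a k) ∧ (338 ≤ nb a k ∨ pos (nb a k) < pos a))
    {e j : ℕ} (hj : j < 8) (he : ∀ l < 8, e.testBit l = decide (pos (st l) < pos (st j))) :
    okA e j = true := by
  obtain ⟨_, hst, _, hall⟩ := r0
  unfold okA
  simp only [allB_iff, anyB_iff, imp_iff]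
  intro z hz h
  obtain ⟨l, hl, h1⟩ := h
  simp only [and_iff', has_pow] at h1
  obtain ⟨h1, h2⟩ := h1
  rw [he l hl, decide_eq_true_iff] at h1
  obtain ⟨hj1, hj2⟩ := hst j hj
  set tm := Nat.lor (Nat.pow 2 76) (Nat.pow 2 (vt (st j) z)) with htm
  have htb : ∀ v, tm.testBit v = true ↔ (v = 76 ∨ v = vt (st j) z) := by
    intro v
    have : tm = 2 ^ 76 ||| 2 ^ vt (st j) z := rfl
    rw [this, Nat.testBit_or, Nat.testBit_two_pow, Nat.testBit_two_pow, Bool.or_eq_true,
      decide_eq_true_iff, decide_eq_true_iff, eq_comm, eq_comm (a := vt (st j) z)]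
  have h76 : 76 ∈ toF tm := by
    rw [mem_toF', htb]
    exact ⟨by norm_num, Or.inl rfl⟩
  have hsub : toF tm ⊆ fac (st j) := by
    intro v hv
    rw [mem_toF', htb] at hv
    rcases hv.2 with rfl | rfl
    · exact hj2
    · exact vt_mem (by omega) hz
  obtain ⟨k, hk, h3, h4⟩ := hsh (st j) hj1 (toF tm) hsub
    (Or.inr ⟨st l, (hst l hl).1, h1, toF_sub h2⟩)
  have h5 := h3 h76
  rw [Finset.mem_erase] at h5
  obtain ⟨h6, _⟩ := starSec hj1 hj2 k hk (fun e => h5.1 e.symm)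
  have h7 : pos (nb (st j) k) < pos (st j) := by
    rcases h4 with h4 | h4
    · omega
    · exact h4
  have h8 : 76 ∈ fac (nb (st j) k) := (nbs (by omega) hk).2.1 (h3 h76)
  obtain ⟨l', hl', h9⟩ := hall _ h6 h8
  refine ⟨k, hk, ?_⟩
  have h10 : has tm (Nat.pow 2 (vt (st j) k)) = false := by
    rw [has_pow]
    cases hb : tm.testBit (vt (st j) k)
    · rfl
    · exfalso
      have h11 : vt (st j) k ∈ toF tm := by
        rw [mem_toF']
        exact ⟨lt_trans (vt_lt (by omega) hk) (by norm_num), hb⟩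
      have h12 := h3 h11
      rw [Finset.mem_erase] at h12
      exact h12.1 rfl
  rw [h10, cond_false, anyB_iff]
  refine ⟨l', hl', ?_⟩
  simp only [and_iff', has_pow, nbeq_iff]
  refine ⟨?_, h9⟩
  rw [he l' hl', decide_eq_true_iff, h9]
  exact h7

theorem starLemma (pos : ℕ → ℕ) (hinj : ∀ a < 338, ∀ b < 338, pos a = pos b → a = b)
    (hsh : ∀ a < 338, ∀ t ⊆ fac a,
      ((∃ c < 338, ∃ k < 4, 338 ≤ nb c k ∧ t ⊆ (fac c).erase (vt c k)) ∨
        (∃ b < 338, pos b < pos a ∧ t ⊆ fac b)) →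
      ∃ k < 4, t ⊆ (fac a).erase (vt a k) ∧ (338 ≤ nb a k ∨ pos (nb a k) < pos a)) :
    ∀ a < 338, 76 ∈ fac a → (∃ c < 338, 76 ∈ fac c ∧ pos a < pos c) →
      ∃ k < 4, vt a k ≠ 76 ∧ pos a < pos (nb a k) := by
  obtain ⟨hr0, hst, hsinj, hall⟩ := r0
  have hR := ckR_ok
  unfold ckR at hR
  simp only [allB_iff, imp_iff, has_pow] at hR
  have key : ∀ n, ∃ e < 256, RT.testBit e = true ∧ ∀ l < 8, e.testBit l = decide (pos (st l) < n) := by
    intro n
    induction n with
    | zero => exact ⟨0, by norm_num, hr0, fun l _ => by simp⟩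
    | succ n ih =>
      obtain ⟨e, he, he1, he2⟩ := ih
      by_cases hex : ∃ j < 8, pos (st j) = n
      · obtain ⟨j, hj, hjn⟩ := hex
        have hok : okA e j = true := okA_of hsh hj (by rw [hjn]; exact he2)
        have hjb : e.testBit j = false := by
          rw [he2 j hj, hjn]; simp
        have h1 := hR e he he1 j hj (by rw [hjb]; rfl) hok
        rw [and_iff'] at h1
        refine ⟨e ||| 2 ^ j, ?_, h1.1, ?_⟩
        · have h2 : (2 : ℕ) ^ j < 2 ^ 8 := Nat.pow_lt_pow_right (by norm_num) hj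
          exact Nat.or_lt_two_pow (n := 8) he h2
        · intro l hl
          rw [Nat.testBit_or, Nat.testBit_two_pow, he2 l hl]
          by_cases hlj : j = l
          · subst hlj
            simp [hjn]
          · have hne : pos (st l) ≠ n := by
              intro h3
              exact hlj (hsinj j hj l hl (hinj _ (hst j hj).1 _ (hst l hl).1 (by rw [hjn, h3])))
            rw [decide_eq_false hlj, Bool.or_false]
            rw [decide_eq_decide]
            omega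
      · push Not at hex
        refine ⟨e, he, he1, ?_⟩
        intro l hl
        rw [he2 l hl, decide_eq_decide]
        have := hex l hl
        omega
  intro a ha hva ⟨c, hc, hvc, hac⟩
  obtain ⟨j, hj, rfl⟩ := hall a ha hva
  obtain ⟨l, hl, rfl⟩ := hall c hc hvc
  obtain ⟨e, he, he1, he2⟩ := key (pos (st j))
  have hjb : e.testBit j = false := by
    rw [he2 j hj]; simp
  have h1 := hR e he he1 j hj (by rw [hjb]; rfl) (okA_of hsh hj he2)
  rw [and_iff'] at h1
  have hor : ∀ l, (Nat.lor e (Nat.pow 2 j)).testBit l = (e.testBit l || decide (j = l)) := by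
    intro l
    have : Nat.lor e (Nat.pow 2 j) = e ||| 2 ^ j := rfl
    rw [this, Nat.testBit_or, Nat.testBit_two_pow]
  have h2 := h1.2
  rw [or_iff'] at h2
  rcases h2 with h2 | h2
  · exfalso
    rw [nbeq_iff] at h2
    have h3 := hor l
    rw [h2, he2 l hl] at h3
    have h4 : (255 : ℕ).testBit l = true := by
      interval_cases l <;> decide
    rw [h4] at h3
    have h5 := h3.symm
    rw [Bool.or_eq_true, decide_eq_true_iff, decide_eq_true_iff] at h5
    rcases h5 with h5 | h5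
    · omega
    · subst h5; omega
  · rw [anyB_iff] at h2
    obtain ⟨k, hk, h3⟩ := h2
    cases h4 : Nat.beq (vt (st j) k) 76
    swap
    · rw [h4] at h3; simp at h3
    rw [h4, cond_false, anyB_iff] at h3
    obtain ⟨l', hl', h5⟩ := h3
    cases h6 : (Nat.lor e (Nat.pow 2 j)).testBit l'
    swap
    · rw [h6] at h5; simp at h5
    rw [h6, cond_false, nbeq_iff] at h5
    refine ⟨k, hk, ?_, ?_⟩
    · intro h7
      rw [nbeq_iff.2 h7] at h4
      simp at h4
    · rw [← h5]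
      rw [hor, he2 l' hl', Bool.or_eq_false_iff, decide_eq_false_iff_not,
        decide_eq_false_iff_not] at h6
      have hne : pos (st l') ≠ pos (st j) := by
        intro h7
        exact h6.2 (hsinj j hj l' hl' (hinj _ (hst j hj).1 _ (hst l' hl').1 h7.symm))
      omega

/-! ### the polytope -/

/-- coordinates of the vertices of the polytope -/
noncomputable def pt (v : ℕ) : Fin 4 → ℝ := fun j => (pq v j : ℝ) - 1073741824

/-- the functional of the facet `i` -/
noncomputable def al (i : ℕ) : (Fin 4 → ℝ) →ₗ[ℝ] ℝ :=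
  ∑ j : Fin 4, (((aq i j : ℝ) - AO) / bq i) • LinearMap.proj j

lemma al_pt (i v : ℕ) : al i (pt v) = (∑ j : Fin 4, ((aq i j : ℝ) - AO) * ((pq v j : ℝ) - 1073741824)) /
    bq i := by
  unfold al pt
  rw [LinearMap.sum_apply, Finset.sum_div]
  apply Finset.sum_congr rfl
  intro j _
  rw [LinearMap.smul_apply, LinearMap.proj_apply, smul_eq_mul]
  ring

lemma poly_chk {i v : ℕ} (hi : i < 394) (hv : v < 77) :
    (v ∈ fac i → al i (pt v) = 1) ∧ (v ∉ fac i → al i (pt v) < 1) := by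
  have h0 := ckP_ok
  unfold ckP at h0
  simp only [allB_iff, and_iff', ble_iff] at h0
  obtain ⟨h1, h2⟩ := h0 i hi
  have h3 := h2 v hv
  have hb : (0 : ℝ) < bq i := by exact_mod_cast h1
  have e4 : ∀ f : ℕ → ℝ, ∑ j : Fin 4, f j = f 0 + f 1 + f 2 + f 3 := by
    intro f
    rw [Fin.sum_univ_four]
    rfl
  have e5 : ∑ j : Fin 4, ((aq i j : ℝ) - AO) * ((pq v j : ℝ) - 1073741824) =
    ((aq i 0 : ℝ) - AO) * ((pq v 0 : ℝ) - 1073741824) + ((aq i 1 : ℝ) - AO) * ((pq v 1 : ℝ) - 1073741824)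
    + ((aq i 2 : ℝ) - AO) * ((pq v 2 : ℝ) - 1073741824) +
    ((aq i 3 : ℝ) - AO) * ((pq v 3 : ℝ) - 1073741824) :=
    e4 (fun j => ((aq i j : ℝ) - AO) * ((pq v j : ℝ) - 1073741824))
  constructor
  · intro hm
    rw [mem_fac] at hm
    rw [has_pow, hm, cond_true, nbeq_iff] at h3
    have h4 : aq i 0 * pq v 0 + aq i 1 * pq v 1 + (aq i 2 * pq v 2 + aq i 3 * pq v 3) +
      4 * (1073741824 * AO) = bq i + (1073741824 * (aq i 0 + aq i 1 + (aq i 2 + aq i 3)) +
      AO * (pq v 0 + pq v 1 + (pq v 2 + pq v 3))) := h3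
    have h5 : ((aq i 0 * pq v 0 + aq i 1 * pq v 1 + (aq i 2 * pq v 2 + aq i 3 * pq v 3) +
      4 * (1073741824 * AO) : ℕ) : ℝ) = ((bq i + (1073741824 * (aq i 0 + aq i 1 + (aq i 2 + aq i 3)) +
      AO * (pq v 0 + pq v 1 + (pq v 2 + pq v 3))) : ℕ) : ℝ) := by rw [h4]
    push_cast at h5
    rw [al_pt, div_eq_one_iff_eq hb.ne', e5]
    linarith
  · intro hm
    rw [mem_fac, Bool.not_eq_true] at hm
    rw [has_pow, hm, cond_false, blt_iff] at h3
    have h4 : aq i 0 * pq v 0 + aq i 1 * pq v 1 + (aq i 2 * pq v 2 + aq i 3 * pq v 3) +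
      4 * (1073741824 * AO) < bq i + (1073741824 * (aq i 0 + aq i 1 + (aq i 2 + aq i 3)) +
      AO * (pq v 0 + pq v 1 + (pq v 2 + pq v 3))) := h3
    have h5 : ((aq i 0 * pq v 0 + aq i 1 * pq v 1 + (aq i 2 * pq v 2 + aq i 3 * pq v 3) +
      4 * (1073741824 * AO) : ℕ) : ℝ) < ((bq i + (1073741824 * (aq i 0 + aq i 1 + (aq i 2 + aq i 3)) +
      AO * (pq v 0 + pq v 1 + (pq v 2 + pq v 3))) : ℕ) : ℝ) := by exact_mod_cast h4
    push_cast at h5
    rw [al_pt, div_lt_one hb, e5]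
    linarith

theorem polyData (i : ℕ) : PolyData (V := ℕ × ℕ) (ι := Fin 394) (d := 4)
    ((Finset.range 77).image (rho (toF Dm) i)) (fun u => pt u.1)
    (fun a => (fac a).image (rho (toF Dm) i)) (fun a => al a) where
  dpos := by norm_num
  sub := by
    intro a u hu
    rw [Finset.mem_image] at hu ⊢
    obtain ⟨w, hw, rfl⟩ := hu
    obtain ⟨k, hk, rfl⟩ := vt_surj a.2 hw
    exact ⟨_, Finset.mem_range.2 (vt_lt a.2 hk), rfl⟩
  crd := by
    intro a
    rw [card_img, fac_card a.2]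
  on := by
    intro a u hu
    rw [Finset.mem_image] at hu
    obtain ⟨w, hw, rfl⟩ := hu
    show al a (pt (rho (toF Dm) i w).1) = 1
    rw [rho_fst]
    obtain ⟨k, hk, rfl⟩ := vt_surj a.2 hw
    exact (poly_chk a.2 (vt_lt a.2 hk)).1 hw
  off := by
    intro a u hu hn
    rw [Finset.mem_image] at hu
    obtain ⟨w, hw, rfl⟩ := hu
    show al a (pt (rho (toF Dm) i w).1) < 1
    rw [rho_fst]
    exact (poly_chk a.2 (Finset.mem_range.1 hw)).2 (fun h => hn (Finset.mem_image_of_mem _ h))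
  nbr := by
    intro a u hu
    rw [Finset.mem_image] at hu
    obtain ⟨w, hw, rfl⟩ := hu
    obtain ⟨k, hk, rfl⟩ := vt_surj a.2 hw
    obtain ⟨h1, h2, h3⟩ := nbs a.2 hk
    refine ⟨⟨nb a k, h1⟩, ?_, ?_⟩
    · intro z hz
      rw [Finset.mem_erase, Finset.mem_image] at hz
      obtain ⟨hz1, y, hy, rfl⟩ := hz
      rw [Finset.mem_image]
      refine ⟨y, h2 ?_, rfl⟩
      rw [Finset.mem_erase]
      exact ⟨fun e => hz1 (by rw [e]), hy⟩
    · intro hz
      rw [Finset.mem_image] at hz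
      obtain ⟨y, hy, he⟩ := hz
      have := rho_inj i he
      rw [this] at hy
      exact h3 hy
  cov := by
    intro u hu
    rw [Finset.mem_image] at hu
    obtain ⟨w, hw, rfl⟩ := hu
    have h0 := ckCov_ok
    unfold ckCov at h0
    simp only [allB_iff, anyB_iff, has_pow] at h0
    obtain ⟨a, ha, h1⟩ := h0 w (Finset.mem_range.1 hw)
    exact ⟨⟨a, ha⟩, Finset.mem_image_of_mem _ (mem_fac.2 h1)⟩

theorem poly (i : ℕ) : IsPolytopeBoundary 4 (cplx 394 fac (rho (toF Dm) i)) := by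
  apply (polyData i).isPolytopeBoundary
  intro s
  rw [mem_cplx]
  constructor
  · rintro ⟨a, ha, hs⟩
    exact ⟨⟨a, ha⟩, hs⟩
  · rintro ⟨a, hs⟩
    exact ⟨a, a.2, hs⟩

end Pool.Agent.V11126.Ear
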